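import Pool.Agent.H14.PL.Px
import Pool.Agent.H14.LB.Stmt

/-!
# Statement-level definitions for the number of exceptional points
-/

set_option autoImplicit false
set_option linter.unusedSectionVars false

open MvPolynomial NumberField Pool.Agent.TH954.X Pool.Agent.TH954.Z Pool.Agent.H14.LB
open Pool.Agent.H14.LB.S

namespace Pool.Agent.H14.PL.S

section

variable {K : Type} [Field K] {n β : ℕ}

/-- over the point `P` of `B(L)` there is, over some number field `L'` containing `L`, a point of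
`X` which is in `W` or does not satisfy the inequality `h_W(x) ≤ ε h(P) + C` -/
def ExceptionalAbove {A : Fin β → AbV K n} (X W : Eqs K n β) (ε C : ℝ) {L : Type} [Field L]
    [NumberField L] [Algebra K L] (P : Pts A L) : Prop :=
  ∃ (L' : Type) (_ : Field L') (_ : NumberField L') (_ : Algebra K L') (_ : Algebra L L')
    (_ : IsScalarTower K L L') (P' : Pts A L'),
    (∀ b c, crds P' b c = algebraMap L L' (crds P b c)) ∧ Exceptional X W ε C P'

/-- for some point `u` of infinite order, the form `H` vanishes at `P + m u` for all integers `m` -/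
def OnCoset {A : Fin β → AbV K n} {L : Type} [Field L] [Algebra K L]
    (φ : L →ₐ[K] AlgebraicClosure K) (H : MvPolynomial (Fin β × Fin n) L) (P : Pts A L) : Prop :=
  ∃ P' u : Pts A (AlgebraicClosure K), (∀ b c, crds P' b c = φ (crds P b c)) ∧
    (∀ m : ℤ, m ≠ 0 → m • u ≠ 0) ∧
    ∀ m : ℤ, ev (map φ.toRingHom H) (crds (P' + m • u)) = 0

/-- the multiples of every point of `B(K̄)` of infinite order are dense in `B` for the Zariski
topology -/
def Simple (A : Fin β → AbV K n) : Prop :=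
  ∀ u : Pts A (AlgebraicClosure K), (∀ m : ℤ, m ≠ 0 → m • u ≠ 0) →
    ∀ (H : MvPolynomial (Fin β × Fin n) (AlgebraicClosure K)) (σ : Fin β → ℕ), MH σ H →
      NonzeroOn A H → ∃ m : ℤ, ev H (crds (m • u)) ≠ 0

/-- the exceptional points of the group `Γ` of height at most `T` -/
def ExceptionalSet {A : Fin β → AbV K n} (X W : Eqs K n β) (ε C : ℝ) {L : Type} [Field L]
    [NumberField L] [Algebra K L] (Γ : AddSubgroup (Pts A L)) (T : ℝ) : Set (Pts A L) :=
  {P | P ∈ Γ ∧ height P ≤ T ∧ ExceptionalAbove X W ε C P}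

/-- the set `E` lies on a hypersurface `H = 0` of multidegree at most `M`, which does not contain
`B`; and each point `P` of `E` satisfies `h(P - z) ≤ C` for one of at most `M ^ κ` points `z` of the
group `Γ`, or for some point `u` of infinite order `H` vanishes at `P + m u` for all integers `m` -/
def FewOutsideCosets {A : Fin β → AbV K n} {L : Type} [Field L] [NumberField L] [Algebra K L]
    (φ : L →ₐ[K] AlgebraicClosure K) (Γ : AddSubgroup (Pts A L)) (C M : ℝ) (κ : ℕ)
    (E : Set (Pts A L)) : Prop :=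
  ∃ (H : MvPolynomial (Fin β × Fin n) L) (σ : Fin β → ℕ), MH σ H ∧ (∀ b, (σ b : ℝ) ≤ M) ∧
    NonzeroOn A H ∧ (∀ P ∈ E, ev H (crds P) = 0) ∧
    ∃ Z : Finset (Pts A L), (∀ z ∈ Z, z ∈ Γ) ∧ (Z.card : ℝ) ≤ M ^ κ ∧
      ∀ P ∈ E, ¬ OnCoset φ H P → ∃ z ∈ Z, height (P - z) ≤ C

end

variable {K : Type} [Field K] [NumberField K] {n β : ℕ}

lemma excA_iff {A : Fin β → AbV K n} (X W : Eqs K n β) (ε C : ℝ) {L : Type} [Field L]
    [NumberField L] [Algebra K L] (P : Pts A L) :
    ExceptionalAbove X W ε C P ↔ ExcR X.f W.f W.δ ε C L P := by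
  constructor
  · rintro ⟨L', iF, iN, iA, iLA, iT, P', hP', hE⟩
    refine ⟨L', iF, iN, iA, iLA, iT, ?_⟩
    have h7 : bcB (IsScalarTower.toAlgHom K L L') P = P' := by
      funext b
      exact Subtype.ext (funext fun c => (hP' b c).symm)
    rw [h7]
    exact (exc_iff X W ε C P').1 hE
  · rintro ⟨L', iF, iN, iA, iLA, iT, hE⟩
    exact ⟨L', iF, iN, iA, iLA, iT, bcB (IsScalarTower.toAlgHom K L L') P, fun b c => rfl,
      (exc_iff X W ε C _).2 hE⟩

lemma onC_iff {A : Fin β → AbV K n} {L : Type} [Field L] [Algebra K L]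
    (φ : L →ₐ[K] AlgebraicClosure K) (H : MvPolynomial (Fin β × Fin n) L) (P : Pts A L) :
    OnCoset φ H P ↔ Ueno (mpc φ H) (bcB φ P) := by
  constructor
  · rintro ⟨P', u, h1, h2, h3⟩
    have h7 : bcB φ P = P' := by
      funext b
      exact Subtype.ext (funext fun c => (h1 b c).symm)
    rw [h7]
    exact ⟨u, h2, h3⟩
  · rintro ⟨u, h2, h3⟩
    exact ⟨bcB φ P, u, fun b c => rfl, h2, h3⟩

/-- there are finitely many points of bounded height -/
lemma north {A : Fin β → AbV K n} (L : Type) [Field L] [NumberField L] [Algebra K L] (B : ℝ) :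
    {P : Pts A L | height P ≤ B}.Finite := by
  have hd : (0 : ℝ) < Module.finrank ℚ L := Nat.cast_pos.2 Module.finrank_pos
  have h1 := NumberField.finite_setOfPred_logHeight₁_le (K := L) (B * Module.finrank ℚ L)
  have h2 : (Set.pi (Set.univ : Set (Fin β × Fin n)) (fun _ =>
      {x : L | Height.logHeight₁ x ≤ B * Module.finrank ℚ L})).Finite := Set.Finite.pi (fun _ => h1)
  refine Set.Finite.of_injOn (f := fun (P : Pts A L) (p : Fin β × Fin n) => (P p.1).1 p.2) ?_ ?_ h2
  · intro P hP p _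
    have h3 : height P ≤ B := hP
    unfold height at h3
    rw [div_le_iff₀ hd] at h3
    have h4 : Height.logHeight (crds P p.1) ≤ ∑ b, Height.logHeight (crds P b) :=
      Finset.single_le_sum (f := fun b => Height.logHeight (crds P b))
        (fun _ _ => Height.logHeight_nonneg _) (Finset.mem_univ p.1)
    have h5 : Height.logHeight₁ ((P p.1).1 p.2) ≤ Height.logHeight (crds P p.1) :=
      logHeight₁_le (P p.1).2.1 p.2
    exact h5.trans (h4.trans h3)
  · intro P _ Q _ h
    funext b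
    refine Subtype.ext (funext fun c => ?_)
    exact congrFun h (b, c)

/-- a hypersurface contains no coset if `B` is simple -/
lemma not_onC {A : Fin β → AbV K n} (hs : Simple A) {L : Type} [Field L] [Algebra K L]
    (φ : L →ₐ[K] AlgebraicClosure K) {H : MvPolynomial (Fin β × Fin n) L} {σ : Fin β → ℕ}
    (hσ : MH σ H) (hH : NonzeroOn A H) (P : Pts A L) : ¬ OnCoset φ H P := by
  rintro ⟨P', u, h1, h2, h3⟩
  -- the form does not vanish identically after the base change
  have hN : NZ1 A (AlgebraicClosure K) (mpc φ H) := by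
    obtain ⟨F, iF, iKF, iLF, iT, Q, hQ⟩ := hH
    let iLK : Algebra L (AlgebraicClosure K) := φ.toRingHom.toAlgebra
    obtain ⟨F3, iF3, iA3, ⟨φ1⟩, ⟨ψ1⟩⟩ := Gen.common L F (AlgebraicClosure K)
    let iKF3 : Algebra K F3 := ((algebraMap L F3).comp (algebraMap K L)).toAlgebra
    let iΩF3 : Algebra (AlgebraicClosure K) F3 := ψ1.toRingHom.toAlgebra
    have iT1 : IsScalarTower K (AlgebraicClosure K) F3 :=
      IsScalarTower.of_algebraMap_eq (fun x => by
        change algebraMap L F3 (algebraMap K L x) = ψ1 (algebraMap K (AlgebraicClosure K) x)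
        rw [← φ.commutes x]
        exact (ψ1.commutes (algebraMap K L x)).symm)
    let φ1K : F →ₐ[K] F3 := { φ1.toRingHom with
      commutes' := fun x => by
        change φ1 (algebraMap K F x) = algebraMap L F3 (algebraMap K L x)
        rw [IsScalarTower.algebraMap_apply K L F]
        exact φ1.commutes (algebraMap K L x) }
    refine ⟨F3, iF3, iKF3, iΩF3, iT1, bcB φ1K Q, ?_⟩
    have h4 : ev (mpc φ H) (vc (bcB φ1K Q)) = φ1 (ev H (crds Q)) := by
      unfold ev mpc
      rw [aeval_def, aeval_def, eval₂_map, ← AlgHom.coe_toRingHom φ1, hom_eval₂]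
      congr 1
      ext x
      have h5 := ψ1.commutes x
      have h6 := φ1.commutes x
      exact h5.trans h6.symm
    rw [h4]
    exact fun h => hQ ((map_eq_zero φ1).1 h)
  obtain ⟨H', hH'1, hH'2, hH'3⟩ := shift A (mpc φ H) σ (MH_mpc φ hσ) hN (-P')
  obtain ⟨m, hm⟩ := hs u h2 H' _ hH'1 hH'2
  apply hm
  refine hH'3 (m • u) ?_
  rw [sub_neg_eq_add, add_comm]
  exact h3 m

/-- the theorem for finitely generated groups -/
theorem polyS (K : Type) [Field K] [NumberField K] (n β : ℕ) (A : Fin β → AbV K n)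
    (hA : DimensionLe A) (X W : Eqs K n β) (hc : ImageCodim A X W 2) (ε : ℝ) (hε : 0 < ε) :
    ∃ (C c : ℝ) (κ : ℕ), ∀ (L : Type) [Field L] [NumberField L] [Algebra K L]
      (φ : L →ₐ[K] AlgebraicClosure K) (Γ : AddSubgroup (Pts A L)), Γ.FG → ∀ T M : ℝ, 1 ≤ T →
      M = c ^ (1 + Module.finrank ℤ Γ) * (1 + Real.log T) →
      FewOutsideCosets φ Γ C M κ (ExceptionalSet X W ε C Γ T) ∧
      (Simple A → ((ExceptionalSet X W ε C Γ T).ncard : ℝ) ≤
        M ^ κ * {P | P ∈ Γ ∧ height P ≤ C}.ncard) := by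
  classical
  obtain ⟨C, c, κ, hc1, hrat⟩ := polyX A hA (Fin X.s) (Fin W.s) X.f
    (fun i => ⟨X.δ i, X.hom i⟩) W.f W.δ W.hom
    (fun F _ _ t P ht h1 h2 => hc F t P ht h1 h2) ε hε
  refine ⟨C, c, κ, fun L _ _ _ φ Γ hΓ T M hT hM => ?_⟩
  have hd : (0 : ℝ) < Module.finrank ℚ L := Nat.cast_pos.2 Module.finrank_pos
  have hht : ∀ (P : Pts A L) (B : ℝ), height P ≤ B ↔ htL P ≤ B * Module.finrank ℚ L := by
    intro P B
    have h6 : height P = htL P / Module.finrank ℚ L := rfl
    rw [h6, div_le_iff₀ hd]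
  obtain ⟨H, σ, h1, h2, h3, h4, Z, h5, h6, h7⟩ := hrat L φ Γ hΓ T hT
  rw [← hM] at h6
  have key : ∀ P ∈ ExceptionalSet X W ε C Γ T, ¬ OnCoset φ H P →
      ∃ z ∈ Z, height (P - z) ≤ C := by
    rintro P ⟨hP, hPT, hE⟩ hU
    obtain ⟨z, hz, hz'⟩ := h7 P hP ((hht P T).1 hPT) ((excA_iff X W ε C P).1 hE)
      (fun h => hU ((onC_iff φ H P).2 h))
    exact ⟨z, hz, (hht (P - z) C).2 hz'⟩
  refine ⟨⟨H, σ, h1, fun b => by rw [hM]; exact h2 b, h3, fun P ⟨hP, hPT, hE⟩ =>
    h4 P hP ((hht P T).1 hPT) ((excA_iff X W ε C P).1 hE), Z, h5, h6, key⟩, fun hs => ?_⟩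
  set Q : Set (Pts A L) := {P | P ∈ Γ ∧ height P ≤ C} with hQ
  have hQf : Q.Finite := (north L C).subset (fun P hP => hP.2)
  have hsub : ExceptionalSet X W ε C Γ T ⊆
      ((Z ×ˢ hQf.toFinset).image (fun p => p.1 + p.2) : Finset (Pts A L)) := by
    intro P hPE
    obtain ⟨z, hz, hz'⟩ := key P hPE (not_onC hs φ h1 h3 P)
    refine Finset.mem_coe.2 (Finset.mem_image.2 ⟨(z, P - z), Finset.mem_product.2 ⟨hz, ?_⟩, ?_⟩)
    · exact hQf.mem_toFinset.2 ⟨Γ.sub_mem hPE.1 (h5 z hz), hz'⟩
    · exact add_sub_cancel z P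
  have h8 := Set.ncard_le_ncard hsub (Finset.finite_toSet _)
  rw [Set.ncard_coe_finset] at h8
  have h9 : (((Z ×ˢ hQf.toFinset).image (fun p => p.1 + p.2)).card : ℝ) ≤
      (Z.card : ℝ) * Q.ncard := by
    rw [Set.ncard_eq_toFinset_card Q hQf]
    have := Finset.card_image_le (s := Z ×ˢ hQf.toFinset) (f := fun p => p.1 + p.2)
    rw [Finset.card_product] at this
    exact_mod_cast this
  have h10 : ((Set.ncard (ExceptionalSet X W ε C Γ T) : ℕ) : ℝ) ≤
      (((Z ×ˢ hQf.toFinset).image (fun p => p.1 + p.2)).card : ℝ) := by exact_mod_cast h8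
  refine h10.trans (h9.trans ?_)
  exact mul_le_mul_of_nonneg_right h6 (Nat.cast_nonneg _)

end Pool.Agent.H14.PL.S
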