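import Pool.Agent.H14.LB.Rat

/-!
# A covering by recursion on the rank
-/

set_option autoImplicit false
set_option linter.unusedSectionVars false

open Module

namespace Pool.Agent.H14.PL

variable {G : Type} [AddCommGroup G] {E : Type} [NormedAddCommGroup E] [NormedSpace ℝ E]
  [FiniteDimensional ℝ E]

/-- a covering by few balls with centres in the set, centred version -/
lemma cover' (v : G →+ E) (S : Set G) (x : G) (R t : ℝ) (hR : 0 ≤ R)
    (ht : 0 < t) (hS : ∀ P ∈ S, ‖v (P - x)‖ ≤ R * t) :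
    ∃ Z : Finset G, (↑Z ⊆ S) ∧ (Z.card : ℝ) ≤ (2 * R + 1) ^ finrank ℝ E ∧
      ∀ P ∈ S, ∃ z ∈ Z, ‖v (P - z)‖ < t := by
  classical
  obtain ⟨Z, h1, h2, h3⟩ := Pool.Agent.H14.LB.cover v ((fun P => P - x) '' S) R t hR ht (by
    rintro _ ⟨P, hP, rfl⟩
    exact hS P hP)
  refine ⟨Z.image (fun P => P + x), ?_, ?_, ?_⟩
  · intro P hP
    rw [Finset.coe_image] at hP
    obtain ⟨Q, hQ, rfl⟩ := hP
    obtain ⟨P', hP', rfl⟩ := h1 hQ
    simpa using hP'
  · refine le_trans ?_ h2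
    exact_mod_cast Finset.card_image_le
  · intro P hP
    obtain ⟨z, hz, hz'⟩ := h3 (P - x) ⟨P, hP, rfl⟩
    refine ⟨z + x, Finset.mem_image_of_mem _ hz, ?_⟩
    have : P - (z + x) = P - x - z := by abel
    rw [this]
    exact hz'

/-- `S` is covered by at most `m` balls of radius `r0` with centres in `S` -/
def Cv (v : G →+ E) (r0 : ℝ) (S : Set G) (m : ℝ) : Prop :=
  ∃ Z : Finset G, ↑Z ⊆ S ∧ (Z.card : ℝ) ≤ m ∧ ∀ P ∈ S, ∃ z ∈ Z, ‖v (P - z)‖ < r0

lemma Cv.mono {v : G →+ E} {r0 : ℝ} {S : Set G} {m m' : ℝ} (h : Cv v r0 S m) (hm : m ≤ m') :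
    Cv v r0 S m' := by
  obtain ⟨Z, h1, h2, h3⟩ := h
  exact ⟨Z, h1, h2.trans hm, h3⟩

lemma Cv.union {v : G →+ E} {r0 : ℝ} {S1 S2 : Set G} {m1 m2 : ℝ} (h1 : Cv v r0 S1 m1)
    (h2 : Cv v r0 S2 m2) : Cv v r0 (S1 ∪ S2) (m1 + m2) := by
  classical
  obtain ⟨Z1, a1, b1, c1⟩ := h1
  obtain ⟨Z2, a2, b2, c2⟩ := h2
  refine ⟨Z1 ∪ Z2, ?_, ?_, ?_⟩
  · rw [Finset.coe_union]
    exact Set.union_subset_union a1 a2
  · have h1 : ((Z1 ∪ Z2).card : ℝ) ≤ Z1.card + Z2.card := by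
      exact_mod_cast Finset.card_union_le Z1 Z2
    linarith
  · rintro P (hP | hP)
    · obtain ⟨z, hz, hz'⟩ := c1 P hP
      exact ⟨z, Finset.mem_union_left _ hz, hz'⟩
    · obtain ⟨z, hz, hz'⟩ := c2 P hP
      exact ⟨z, Finset.mem_union_right _ hz, hz'⟩

lemma Cv.biUnion {v : G →+ E} {r0 : ℝ} {ι : Type} (I : Finset ι) (S : ι → Set G) (m : ℝ)
    (h : ∀ i ∈ I, Cv v r0 (S i) m) : Cv v r0 (⋃ i ∈ I, S i) (I.card * m) := by
  classical
  induction I using Finset.induction_on with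
  | empty =>
    refine ⟨∅, by simp, by simp, ?_⟩
    intro P hP
    simp at hP
  | insert a I ha ih =>
    rw [Finset.set_biUnion_insert, Finset.card_insert_of_notMem ha]
    have h1 := (h a (Finset.mem_insert_self a I)).union
      (ih (fun i hi => h i (Finset.mem_insert_of_mem hi)))
    refine h1.mono ?_
    push_cast
    linarith

/-- covering the cells of a covering -/
lemma Cv.cells {v : G →+ E} {r0 : ℝ} {S : Set G} {t m c : ℝ} (hm : 0 ≤ m) (Z : Finset G)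
    (hZc : (Z.card : ℝ) ≤ c) (hZ : ∀ P ∈ S, ∃ z ∈ Z, ‖v (P - z)‖ < t)
    (h : ∀ z ∈ Z, Cv v r0 (S ∩ {P | ‖v (P - z)‖ < t}) m) : Cv v r0 S (c * m) := by
  have h1 := Cv.biUnion Z (fun z => S ∩ {P | ‖v (P - z)‖ < t}) m h
  have h2 : (⋃ z ∈ Z, S ∩ {P | ‖v (P - z)‖ < t}) = S := by
    ext P
    constructor
    · intro hP
      obtain ⟨z, hP⟩ := Set.mem_iUnion.1 hP
      obtain ⟨_, hP⟩ := Set.mem_iUnion.1 hP
      exact hP.1
    · intro hP
      obtain ⟨z, hz, hz'⟩ := hZ P hP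
      exact Set.mem_iUnion.2 ⟨z, Set.mem_iUnion.2 ⟨hz, hP, hz'⟩⟩
  rw [h2] at h1
  exact h1.mono (mul_le_mul_of_nonneg_right hZc hm)

/-- **The recursion.** -/
theorem recur (v : G →+ E) (ρ : Set G → ℕ) (hmono : ∀ S T : Set G, S ⊆ T → ρ S ≤ ρ T)
    (S : Set G) (r0 B c6 δ : ℝ) (h0 : 0 < r0) (hc6 : 1 ≤ c6) (hδ : 0 < δ)
    (hS : ∀ P ∈ S, ‖v P‖ ≤ B) (J : ℕ) (hJ : 2 * B < 2 ^ J * (c6 * r0))
    (hpos : ∀ S' : Set G, S'.Nonempty → 1 ≤ ρ S')
    (hfar : ∀ S' S1 S2 : Set G, S' ⊆ S → S1 ⊆ S' → S2 ⊆ S' → ρ S1 = ρ S' → ρ S2 = ρ S' →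
      ∀ (x y : G) (r1 : ℝ), r0 ≤ r1 → y ∈ S2 → (∀ a ∈ S1, ‖v (a - x)‖ ≤ r1) →
        (∀ c ∈ S2, ‖v (c - y)‖ ≤ δ * ‖v (y - x)‖) → c6 * r1 ≤ ‖v (y - x)‖ → False) :
    ∀ (k : ℕ) (S' : Set G), S' ⊆ S → ρ S' ≤ k →
      Cv v r0 S' (((4 * c6 + 1) ^ finrank ℝ E + J * (4 / δ + 1) ^ finrank ℝ E) ^ k) := by
  classical
  set N : ℝ := (4 * c6 + 1) ^ finrank ℝ E + J * (4 / δ + 1) ^ finrank ℝ E with hN
  have hN1 : 1 ≤ N := by
    have h1 : (1 : ℝ) ≤ (4 * c6 + 1) ^ finrank ℝ E := one_le_pow₀ (by linarith)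
    have h2 : 0 ≤ J * (4 / δ + 1) ^ finrank ℝ E := by positivity
    linarith
  intro k
  induction k with
  | zero =>
    intro S' hS' hk
    have h1 : S' = ∅ := by
      by_contra h
      have := hpos S' (Set.nonempty_iff_ne_empty.2 h)
      omega
    subst h1
    exact ⟨∅, by simp, by simp, by simp⟩
  | succ k ih =>
    intro S' hS' hk
    rcases Nat.lt_or_ge (ρ S') (k + 1) with hlt | hge
    · exact (ih S' hS' (Nat.lt_succ_iff.1 hlt)).mono (pow_le_pow_right₀ hN1 (Nat.le_succ k))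
    have hρ : ρ S' = k + 1 := le_antisymm hk hge
    rcases S'.eq_empty_or_nonempty with hemp | hne
    · rw [hemp]
      refine ⟨∅, by simp, ?_, by simp⟩
      simp only [Finset.card_empty, Nat.cast_zero]
      positivity
    have hmN : 0 ≤ N ^ k := by positivity
    have hd : ∀ P ∈ S', ∀ x ∈ S', ‖v (P - x)‖ ≤ 2 * B := by
      intro P hP x hx
      rw [map_sub]
      have h1 := norm_sub_le (v P) (v x)
      have h2 := hS P (hS' hP)
      have h3 := hS x (hS' hx)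
      linarith
    -- the smallest radius of a ball of full rank
    have hex : ∃ j : ℕ, ∃ x ∈ S', ρ (S' ∩ {P | ‖v (P - x)‖ ≤ 2 ^ j * r0}) = k + 1 := by
      obtain ⟨x, hx⟩ := hne
      obtain ⟨j, hj⟩ := pow_unbounded_of_one_lt (2 * B / r0) (by norm_num : (1 : ℝ) < 2)
      refine ⟨j, x, hx, ?_⟩
      have h1 : S' ∩ {P | ‖v (P - x)‖ ≤ 2 ^ j * r0} = S' := by
        refine Set.inter_eq_left.2 (fun P hP => ?_)
        rw [div_lt_iff₀ h0] at hj
        exact (hd P hP x hx).trans hj.le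
      rw [h1, hρ]
    obtain ⟨x, hx, hxρ⟩ := Nat.find_spec hex
    set j := Nat.find hex with hj
    have hmin : ∀ i, i < j → ∀ z ∈ S', ρ (S' ∩ {P | ‖v (P - z)‖ ≤ 2 ^ i * r0}) ≤ k := by
      intro i hi z hz
      have h1 := Nat.find_min hex hi
      push Not at h1
      have h2 := h1 z hz
      have h3 := hmono (S' ∩ {P | ‖v (P - z)‖ ≤ 2 ^ i * r0}) S' Set.inter_subset_left
      omega
    set r1 : ℝ := 2 ^ j * r0 with hr1
    have hr01 : r0 ≤ r1 := le_mul_of_one_le_left h0.le (one_le_pow₀ (by norm_num))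
    have hr1p : 0 < r1 := h0.trans_le hr01
    -- the near part
    have hnear : Cv v r0 (S' ∩ {P | ‖v (P - x)‖ ≤ c6 * r1}) ((4 * c6 + 1) ^ finrank ℝ E * N ^ k) := by
      rcases Nat.eq_zero_or_pos j with hj0 | hjp
      · obtain ⟨Z, h1, h2, h3⟩ := cover' v (S' ∩ {P | ‖v (P - x)‖ ≤ c6 * r1}) x c6 r0
          (by linarith) h0 (by
            rintro P ⟨-, hP⟩
            have h4 : r1 = r0 := by rw [hr1, hj0, pow_zero, one_mul]
            rw [h4] at hP
            exact hP)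
        refine ⟨Z, h1, h2.trans ?_, h3⟩
        have h5 : (2 * c6 + 1) ^ finrank ℝ E ≤ (4 * c6 + 1) ^ finrank ℝ E :=
          pow_le_pow_left₀ (by linarith) (by linarith) _
        have h6 : (4 * c6 + 1) ^ finrank ℝ E * 1 ≤ (4 * c6 + 1) ^ finrank ℝ E * N ^ k :=
          mul_le_mul_of_nonneg_left (one_le_pow₀ hN1) (by positivity)
        linarith
      · obtain ⟨i, hi⟩ : ∃ i, j = i + 1 := ⟨j - 1, by omega⟩
        have hr1i : r1 = 2 * (2 ^ i * r0) := by
          rw [hr1, hi, pow_succ]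
          ring
        obtain ⟨Z, h1, h2, h3⟩ := cover' v (S' ∩ {P | ‖v (P - x)‖ ≤ c6 * r1}) x (2 * c6)
          (2 ^ i * r0) (by linarith) (by positivity) (by
            rintro P ⟨-, hP⟩
            have hP' : ‖v (P - x)‖ ≤ c6 * r1 := hP
            rw [hr1i] at hP'
            linarith)
        refine Cv.cells hmN Z (c := (4 * c6 + 1) ^ finrank ℝ E) ?_ h3 (fun z hz => ?_)
        · have e : 2 * (2 * c6) + 1 = 4 * c6 + 1 := by ring
          rwa [e] at h2
        · refine ih _ ?_ ?_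
          · exact (Set.inter_subset_left.trans Set.inter_subset_left).trans hS'
          · refine le_trans (hmono _ _ ?_) (hmin i (by omega) z (h1 hz).1)
            rintro P ⟨⟨hP1, -⟩, hP2⟩
            have hP3 : ‖v (P - z)‖ < 2 ^ i * r0 := hP2
            exact ⟨hP1, hP3.le⟩
    -- the far part
    have hfarp : ∀ i ∈ Finset.range J, Cv v r0
        (S' ∩ {P | 2 ^ i * (c6 * r1) ≤ ‖v (P - x)‖ ∧ ‖v (P - x)‖ ≤ 2 * (2 ^ i * (c6 * r1))})
        ((4 / δ + 1) ^ finrank ℝ E * N ^ k) := by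
      intro i _
      have ht : 0 < δ * (2 ^ i * (c6 * r1)) := by positivity
      obtain ⟨Z, h1, h2, h3⟩ := cover' v
        (S' ∩ {P | 2 ^ i * (c6 * r1) ≤ ‖v (P - x)‖ ∧ ‖v (P - x)‖ ≤ 2 * (2 ^ i * (c6 * r1))}) x
        (2 / δ) (δ * (2 ^ i * (c6 * r1))) (by positivity) ht (by
          rintro P ⟨-, -, hP⟩
          have : 2 / δ * (δ * (2 ^ i * (c6 * r1))) = 2 * (2 ^ i * (c6 * r1)) := by
            field_simp
          rw [this]
          exact hP)
      refine Cv.cells hmN Z (c := (4 / δ + 1) ^ finrank ℝ E) ?_ h3 (fun z hz => ?_)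
      · have e : 2 * (2 / δ) + 1 = 4 / δ + 1 := by ring
        rwa [e] at h2
      · set C0 := S' ∩ {P | 2 ^ i * (c6 * r1) ≤ ‖v (P - x)‖ ∧ ‖v (P - x)‖ ≤ 2 * (2 ^ i * (c6 * r1))} ∩
          {P | ‖v (P - z)‖ < δ * (2 ^ i * (c6 * r1))} with hC0
        have hCS' : C0 ⊆ S' := Set.inter_subset_left.trans Set.inter_subset_left
        refine ih C0 (hCS'.trans hS') ?_
        by_contra hcon
        have hρC : ρ C0 = ρ S' := by
          have := hmono C0 S' hCS'
          omega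
        have hz1 := (h1 hz)
        have hz2 : 2 ^ i * (c6 * r1) ≤ ‖v (z - x)‖ := hz1.2.1
        refine hfar S' (S' ∩ {P | ‖v (P - x)‖ ≤ 2 ^ j * r0}) C0 hS' Set.inter_subset_left hCS'
          (by rw [hxρ, hρ]) hρC x z r1 hr01 ?_ (fun a ha => ha.2) (fun c hc => ?_) ?_
        · refine ⟨hz1, ?_⟩
          change ‖v (z - z)‖ < _
          rw [sub_self, map_zero, norm_zero]
          exact ht
        · exact (le_of_lt hc.2).trans (mul_le_mul_of_nonneg_left hz2 hδ.le)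
        · refine le_trans ?_ hz2
          exact le_mul_of_one_le_left (by positivity) (one_le_pow₀ (by norm_num))
    have h1 := Cv.biUnion (Finset.range J) _ _ hfarp
    have h2 := hnear.union h1
    have h3 : (S' ∩ {P | ‖v (P - x)‖ ≤ c6 * r1}) ∪ (⋃ i ∈ Finset.range J, S' ∩
        {P | 2 ^ i * (c6 * r1) ≤ ‖v (P - x)‖ ∧ ‖v (P - x)‖ ≤ 2 * (2 ^ i * (c6 * r1))}) = S' := by
      apply Set.Subset.antisymm
      · refine Set.union_subset Set.inter_subset_left ?_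
        refine Set.iUnion₂_subset (fun i _ => Set.inter_subset_left)
      · intro P hP
        by_cases hn : ‖v (P - x)‖ ≤ c6 * r1
        · exact Or.inl ⟨hP, hn⟩
        · push Not at hn
          right
          have hc : 0 < c6 * r1 := by positivity
          have e1 : 1 ≤ ‖v (P - x)‖ / (c6 * r1) := by
            rw [le_div_iff₀ hc]
            linarith
          obtain ⟨i, hi1, hi2⟩ := exists_nat_pow_near e1 (by norm_num : (1 : ℝ) < 2)
          rw [le_div_iff₀ hc] at hi1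
          rw [div_lt_iff₀ hc] at hi2
          refine Set.mem_iUnion₂.2 ⟨i, ?_, hP, hi1, ?_⟩
          · rw [Finset.mem_range]
            by_contra hcon
            push Not at hcon
            have e2 : (2 : ℝ) ^ J ≤ 2 ^ i := pow_le_pow_right₀ (by norm_num) hcon
            have e3 := hd P hP x hx
            have e4 : (2 : ℝ) ^ J * (c6 * r0) ≤ 2 ^ i * (c6 * r1) := by gcongr
            linarith
          · rw [pow_succ] at hi2
            linarith
    rw [h3] at h2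
    refine h2.mono (le_of_eq ?_)
    rw [Finset.card_range, hN, pow_succ]
    ring

end Pool.Agent.H14.PL
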