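import Mathlib

/-!
# Algebraically closed fields are existentially closed
-/

set_option autoImplicit false

open MvPolynomial

namespace Pool.Agent.H14.PL

/-- a system of equations and one inequation over an algebraically closed field which has a solution
in an extension field has a solution -/
theorem ec {k F : Type} [Field k] [IsAlgClosed k] [Field F] [Algebra k F] {ν I : Type} [Finite ν]
    (p : I → MvPolynomial ν k) (g : MvPolynomial ν k) (x : ν → F)
    (hx : ∀ i, aeval x (p i) = 0) (hg : aeval x g ≠ 0) :
    ∃ y : ν → k, (∀ i, eval y (p i) = 0) ∧ eval y g ≠ 0 := by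
  by_contra hcon
  push Not at hcon
  have h1 : g ∈ vanishingIdeal k (zeroLocus k (Ideal.span (Set.range p))) := by
    rw [mem_vanishingIdeal_iff]
    intro y hy
    have := hcon y (fun i => by
      have h2 := (mem_zeroLocus_iff.1 hy) (p i) (Ideal.subset_span ⟨i, rfl⟩)
      simpa using h2)
    simpa using this
  rw [vanishingIdeal_zeroLocus_eq_radical] at h1
  obtain ⟨N, hN⟩ := h1
  apply hg
  have h2 : ∀ q ∈ Ideal.span (Set.range p), aeval x q = 0 := by
    intro q hq
    refine Submodule.span_induction ?_ ?_ ?_ ?_ hq
    · rintro _ ⟨i, rfl⟩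
      exact hx i
    · exact map_zero _
    · intro a b _ _ ha hb
      rw [map_add, ha, hb, add_zero]
    · intro a b _ hb
      rw [smul_eq_mul, map_mul, hb, mul_zero]
  have h3 := h2 _ hN
  rw [map_pow] at h3
  rcases Nat.eq_zero_or_pos N with h | h
  · subst h
    rw [pow_zero] at h3
    exact absurd h3 one_ne_zero
  · exact (pow_eq_zero_iff h.ne').1 h3

end Pool.Agent.H14.PL
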