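import Pool.Agent.H14.PL.Ssl

/-!
# Polynomial functions
-/

set_option autoImplicit false

open MvPolynomial

namespace Pool.Agent.H14.PL

section

variable {Ω τ : Type} [Field Ω]

/-- polynomial functions -/
def IsP (f : (τ → Ω) → Ω) : Prop := ∃ P : MvPolynomial τ Ω, ∀ z, eval z P = f z

lemma IsP.var (t : τ) : IsP (fun z : τ → Ω => z t) := ⟨X t, fun z => eval_X t⟩

lemma IsP.const (a : Ω) : IsP (fun _ : τ → Ω => a) := ⟨C a, fun z => eval_C a⟩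

lemma IsP.add {f g : (τ → Ω) → Ω} (hf : IsP f) (hg : IsP g) : IsP (fun z => f z + g z) := by
  obtain ⟨P, hP⟩ := hf
  obtain ⟨Q, hQ⟩ := hg
  exact ⟨P + Q, fun z => by rw [map_add, hP, hQ]⟩

lemma IsP.sub {f g : (τ → Ω) → Ω} (hf : IsP f) (hg : IsP g) : IsP (fun z => f z - g z) := by
  obtain ⟨P, hP⟩ := hf
  obtain ⟨Q, hQ⟩ := hg
  exact ⟨P - Q, fun z => by rw [map_sub, hP, hQ]⟩

lemma IsP.mul {f g : (τ → Ω) → Ω} (hf : IsP f) (hg : IsP g) : IsP (fun z => f z * g z) := by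
  obtain ⟨P, hP⟩ := hf
  obtain ⟨Q, hQ⟩ := hg
  exact ⟨P * Q, fun z => by rw [map_mul, hP, hQ]⟩

lemma IsP.pow {f : (τ → Ω) → Ω} (hf : IsP f) (m : ℕ) : IsP (fun z => f z ^ m) := by
  obtain ⟨P, hP⟩ := hf
  exact ⟨P ^ m, fun z => by rw [map_pow, hP]⟩

lemma IsP.sum {ι : Type} (s : Finset ι) {f : ι → (τ → Ω) → Ω} (hf : ∀ i, IsP (f i)) :
    IsP (fun z => ∑ i ∈ s, f i z) := by
  choose P hP using hf
  exact ⟨∑ i ∈ s, P i, fun z => by rw [map_sum]; exact Finset.sum_congr rfl (fun i _ => hP i z)⟩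

lemma IsP.prod {ι : Type} (s : Finset ι) {f : ι → (τ → Ω) → Ω} (hf : ∀ i, IsP (f i)) :
    IsP (fun z => ∏ i ∈ s, f i z) := by
  choose P hP using hf
  exact ⟨∏ i ∈ s, P i, fun z => by rw [map_prod]; exact Finset.prod_congr rfl (fun i _ => hP i z)⟩

lemma IsP.aev {K : Type} [Field K] [Algebra K Ω] {σ : Type} (Q : MvPolynomial σ K)
    {g : σ → (τ → Ω) → Ω} (hg : ∀ p, IsP (g p)) : IsP (fun z => aeval (fun p => g p z) Q) := by
  choose P hP using hg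
  refine ⟨aeval P Q, fun z => ?_⟩
  have h1 := MvPolynomial.comp_aeval_apply (f := P) ((aeval (R := Ω) z).restrictScalars K) Q
  have h2 : (aeval (R := Ω) z).restrictScalars K (aeval P Q) = eval z (aeval P Q) := by
    rw [AlgHom.restrictScalars_apply, aeval_eq_eval]
  rw [← h2, h1]
  congr 1
  congr 1
  funext p
  rw [AlgHom.restrictScalars_apply, aeval_eq_eval]
  exact hP p z

lemma hpoly {H : Ω → ℝ} (hH : Ht Ω H) [Fintype τ] {f : (τ → Ω) → Ω} (hf : IsP f) :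
    ∃ C : ℝ, 0 ≤ C ∧ ∀ z, H (f z) ≤ C * (1 + ∑ t, H (z t)) := by
  obtain ⟨P, hP⟩ := hf
  have hs : ∀ z : τ → Ω, 0 ≤ ∑ t, H (z t) := fun z => Finset.sum_nonneg (fun t _ => hH.nonneg _)
  suffices h : ∃ C : ℝ, 0 ≤ C ∧ ∀ z, H (eval z P) ≤ C * (1 + ∑ t, H (z t)) by
    obtain ⟨C, hC, h⟩ := h
    exact ⟨C, hC, fun z => by rw [← hP]; exact h z⟩
  clear hP f
  induction P using MvPolynomial.induction_on with
  | C a =>
    refine ⟨H a, hH.nonneg a, fun z => ?_⟩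
    rw [eval_C]
    exact le_mul_of_one_le_right (hH.nonneg a) (by linarith [hs z])
  | add p q hp hq =>
    obtain ⟨C1, h1, h1'⟩ := hp
    obtain ⟨C2, h2, h2'⟩ := hq
    obtain ⟨c, hc⟩ := hH.add
    refine ⟨C1 + C2 + |c|, by positivity, fun z => ?_⟩
    rw [map_add]
    have h3 := hc (eval z p) (eval z q)
    have h4 := h1' z
    have h5 := h2' z
    have h6 : c ≤ |c| * (1 + ∑ t, H (z t)) :=
      (le_abs_self c).trans (le_mul_of_one_le_right (abs_nonneg c) (by linarith [hs z]))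
    rw [add_mul, add_mul]
    linarith
  | mul_X p t hp =>
    obtain ⟨C1, h1, h1'⟩ := hp
    refine ⟨C1 + 1, by positivity, fun z => ?_⟩
    rw [map_mul, eval_X]
    have h3 := hH.mul (eval z p) (z t)
    have h4 := h1' z
    have h5 : H (z t) ≤ ∑ t, H (z t) :=
      Finset.single_le_sum (f := fun t => H (z t)) (fun t _ => hH.nonneg _) (Finset.mem_univ t)
    rw [add_mul, one_mul]
    linarith

/-- small solutions of systems of polynomial equations -/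
theorem ssl' [IsAlgClosed Ω] {H : Ω → ℝ} (hH : Ht Ω H) {μ ν I : Type} [Fintype μ] [Finite ν]
    [Finite I] (f : I → (μ ⊕ ν → Ω) → Ω) (hf : ∀ i, IsP (f i)) :
    ∃ C : ℝ, 0 ≤ C ∧ ∀ c : μ → Ω, (∃ x : ν → Ω, ∀ i, f i (Sum.elim c x) = 0) →
      ∃ x : ν → Ω, (∀ i, f i (Sum.elim c x) = 0) ∧ ∀ j, H (x j) ≤ C * (1 + ∑ i, H (c i)) := by
  choose P hP using hf
  obtain ⟨C, hC, h⟩ := ssl hH P 1
  refine ⟨C, hC, fun c ⟨x, hx⟩ => ?_⟩
  obtain ⟨x', h1, -, h3⟩ := h c ⟨x, fun i => by rw [hP]; exact hx i, by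
    rw [map_one]; exact one_ne_zero⟩
  exact ⟨x', fun i => by rw [← hP]; exact h1 i, h3⟩

end

end Pool.Agent.H14.PL
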