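import Pool.Agent.H14.PL.Rk3
import Pool.Agent.H14.PL.Ip

/-!
# Translations with small height
-/

set_option autoImplicit false
set_option linter.unusedSectionVars false

open MvPolynomial Pool.Agent.TH954.X Pool.Agent.TH954.V Pool.Agent.TH954.Z Pool.Agent.H14.LB

namespace Pool.Agent.H14.PL

section

variable {K : Type} [Field K] {n β : ℕ} {A : Fin β → AbV K n} {Ω : Type} [Field Ω] [IsAlgClosed Ω]
  [Algebra K Ω]

/-- the sum of the heights of the coordinates -/
noncomputable def hG (H : Ω → ℝ) (P : Bp A Ω) : ℝ := ∑ b, ∑ c, H ((P b).1 c)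

lemma hG_nonneg {H : Ω → ℝ} (hH : Ht Ω H) (P : Bp A Ω) : 0 ≤ hG H P :=
  Finset.sum_nonneg (fun _ _ => Finset.sum_nonneg (fun _ _ => hH.nonneg _))

/-- the values of the forms of the group law, as polynomial functions -/
lemma IsP_law {τ : Type} (b : Fin β) (i j : Fin n) {u v : Fin n → (τ → Ω) → Ω}
    (hu : ∀ c, IsP (u c)) (hv : ∀ c, IsP (v c)) :
    IsP (fun z => ev ((A b).Λ i j) ![fun c => u c z, fun c => v c z]) := by
  have h := IsP.aev (K := K) (τ := τ) (Ω := Ω) ((A b).Λ i j)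
    (g := fun p z => (![fun c => u c z, fun c => v c z] : Fin 2 → Fin n → Ω) p.1 p.2) (by
      rintro ⟨a, c⟩
      fin_cases a
      · exact hu c
      · exact hv c)
  exact h

lemma hG_add {H : Ω → ℝ} (hH : Ht Ω H) (x : Bp A Ω) :
    ∃ C : ℝ, 0 ≤ C ∧ ∀ a : Bp A Ω, hG H (x + a) ≤ C * (1 + hG H a) := by
  have h1 : ∀ (b : Fin β) (i j : Fin n), ∃ C : ℝ, 0 ≤ C ∧ ∀ z : Fin β × Fin n → Ω,
      H (ev ((A b).Λ i j) ![(x b).1, fun c => z (b, c)]) ≤ C * (1 + ∑ t, H (z t)) := by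
    intro b i j
    exact hpoly hH (IsP_law (K := K) (A := A) b i j (u := fun c _ => (x b).1 c)
      (v := fun c z => z (b, c)) (fun c => IsP.const _) (fun c => IsP.var _))
  choose C hC0 hC using h1
  set T : ℝ := ∑ b, ∑ i, ∑ j, C b i j with hT
  have hCT : ∀ b i j, C b i j ≤ T := by
    intro b i j
    have e1 : C b i j ≤ ∑ j, C b i j :=
      Finset.single_le_sum (f := fun j => C b i j) (fun j _ => hC0 b i j) (Finset.mem_univ j)
    have e2 : ∑ j, C b i j ≤ ∑ i, ∑ j, C b i j :=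
      Finset.single_le_sum (f := fun i => ∑ j, C b i j)
        (fun i _ => Finset.sum_nonneg (fun j _ => hC0 b i j)) (Finset.mem_univ i)
    have e3 : ∑ i, ∑ j, C b i j ≤ T :=
      Finset.single_le_sum (f := fun b => ∑ i, ∑ j, C b i j)
        (fun b _ => Finset.sum_nonneg (fun i _ => Finset.sum_nonneg (fun j _ => hC0 b i j)))
        (Finset.mem_univ b)
    linarith
  have hT0 : 0 ≤ T := Finset.sum_nonneg (fun b _ => Finset.sum_nonneg (fun i _ =>
    Finset.sum_nonneg (fun j _ => hC0 b i j)))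
  refine ⟨∑ _b : Fin β, ∑ _c : Fin n, 2 * T, by positivity, fun a => ?_⟩
  have hsum : ∑ t : Fin β × Fin n, H ((a t.1).1 t.2) = hG H a := by
    rw [Fintype.sum_prod_type]
    rfl
  have hbd : ∀ b i j, H (ev ((A b).Λ i j) ![(x b).1, (a b).1]) ≤ T * (1 + hG H a) := by
    intro b i j
    have h2 := hC b i j (fun t => (a t.1).1 t.2)
    rw [hsum] at h2
    refine h2.trans (mul_le_mul_of_nonneg_right (hCT b i j) ?_)
    linarith [hG_nonneg hH a]
  unfold hG
  rw [Finset.sum_mul]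
  refine Finset.sum_le_sum (fun b _ => ?_)
  rw [Finset.sum_mul]
  refine Finset.sum_le_sum (fun c _ => ?_)
  obtain ⟨s, hs, hs'⟩ := (A b).Λ_spec Ω (x b) (a b)
  have hs'' : ∀ i j, ev ((A b).Λ i j) ![(x b).1, (a b).1] =
      s * (((x + a) b).1 i * ((x - a) b).1 j) := hs'
  obtain ⟨i, hi, -⟩ := ((x + a) b).2.1
  obtain ⟨j, hj, -⟩ := ((x - a) b).2.1
  have h2 : ((x + a) b).1 c = ev ((A b).Λ c j) ![(x b).1, (a b).1] *
      (ev ((A b).Λ i j) ![(x b).1, (a b).1])⁻¹ := by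
    rw [hs'', hs'', hi, hj, mul_one, mul_one, mul_one]
    field_simp
  change H (((x + a) b).1 c) ≤ 2 * T * (1 + hG H a)
  rw [h2]
  refine (hH.mul _ _).trans ?_
  have h3 := hH.inv (ev ((A b).Λ i j) ![(x b).1, (a b).1])
  have h4 := hbd b c j
  have h5 := hbd b i j
  linarith

/-- a subspace of small dimension is contained in the span of few vectors -/
lemma exists_gen {M : Type} [Fintype M] (W : Submodule Ω (M → Ω)) {k : ℕ}
    (h : Module.finrank Ω W ≤ k) : ∃ w : Fin k → M → Ω, W ≤ Submodule.span Ω (Set.range w) := by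
  classical
  let bs := Module.finBasis Ω W
  refine ⟨fun l => if h : (l : ℕ) < Module.finrank Ω W then (bs ⟨l, h⟩ : M → Ω) else 0, ?_⟩
  intro v hv
  have h1 : (⟨v, hv⟩ : W) ∈ Submodule.span Ω (Set.range bs) := by
    rw [bs.span_eq]
    exact Submodule.mem_top
  have h2 : v ∈ Submodule.map W.subtype (Submodule.span Ω (Set.range bs)) := ⟨⟨v, hv⟩, h1, rfl⟩
  rw [Submodule.map_span] at h2
  refine Submodule.span_mono ?_ h2
  rintro _ ⟨_, ⟨i, rfl⟩, rfl⟩
  refine ⟨⟨i, lt_of_lt_of_le i.2 h⟩, ?_⟩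
  simp

/-- the translation by `s` can be replaced by one of small height -/
lemma fl0_fix {H : Ω → ℝ} (hH : Ht Ω H) (D : ℕ) (X : Set (Bp A Ω)) (hXf : X.Finite)
    (hX : ∀ S : Set (Bp A Ω), ∃ x ∈ X, Rx D x S = rk D S) (k1 k2 k : ℕ) (i0 : Fin β → Fin n) :
    ∃ C : ℝ, 0 ≤ C ∧ ∀ (a : Fin k1 → Bp A Ω) (t : Fin k2 → Bp A Ω) (y : Bp A Ω) (R : ℝ), 1 ≤ R →
      (∀ i, hG H (a i) ≤ R) → (∀ j, hG H (t j) ≤ R) →
      (∀ b, (y b).1 (i0 b) = 1 ∧ ∀ c, c < i0 b → (y b).1 c = 0) →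
      rk D (Set.range a ∪ (fun u => u + y) '' Set.range t) ≤ k →
      ∃ s : Bp A Ω, hG H s ≤ C * R ∧ rk D (Set.range a ∪ (fun u => u + s) '' Set.range t) ≤ k := by
  classical
  have : Fintype X := hXf.fintype
  let μ : Type := X × (Fin k1 ⊕ Fin k2) × (Fin β × Fin n)
  let ν : Type := (Fin β × Fin n) ⊕ (X × Fin k × Mon β n D) ⊕
    (X × (Fin k1 ⊕ (Fin k2 × (Fin β → Fin n))) × Fin k)
  let I : Type := ((b : Fin β) × Fin (A b).e) ⊕ (Fin β × Fin n) ⊕ (X × Fin k1 × Mon β n D) ⊕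
    (X × (Fin k2 × (Fin β → Fin n)) × Mon β n D)
  let pv : X → (Fin k1 ⊕ Fin k2) → (μ ⊕ ν → Ω) → Fin β → Fin n → Ω :=
    fun x r z b c => z (Sum.inl (x, r, (b, c)))
  let sv : (μ ⊕ ν → Ω) → Fin β → Fin n → Ω := fun z b c => z (Sum.inr (Sum.inl (b, c)))
  let wv : X → Fin k → Mon β n D → (μ ⊕ ν → Ω) → Ω :=
    fun x l m z => z (Sum.inr (Sum.inr (Sum.inl (x, l, m))))
  let cv : X → (Fin k1 ⊕ (Fin k2 × (Fin β → Fin n))) → Fin k → (μ ⊕ ν → Ω) → Ω :=
    fun x r l z => z (Sum.inr (Sum.inr (Sum.inr (x, r, l))))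
  let f : I → (μ ⊕ ν → Ω) → Ω := fun q z => match q with
    | Sum.inl ⟨b, j⟩ => aeval (fun c => sv z b c) ((A b).eqn j)
    | Sum.inr (Sum.inl (b, c)) =>
        if c < i0 b then sv z b c else if c = i0 b then sv z b c - 1 else 0
    | Sum.inr (Sum.inr (Sum.inl (x, i, m))) => phi D (pv x (Sum.inl i) z) m -
        ∑ l, cv x (Sum.inl i) l z * wv x l m z
    | Sum.inr (Sum.inr (Sum.inr (x, (j, J), m))) =>
        phi D (fun b c => ev ((A b).Λ c (J b)) ![pv x (Sum.inr j) z b, sv z b]) m -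
        ∑ l, cv x (Sum.inr (j, J)) l z * wv x l m z
  have hf : ∀ q, IsP (f q) := by
    rintro (⟨b, j⟩ | ⟨b, c⟩ | ⟨x, i, m⟩ | ⟨x, ⟨j, J⟩, m⟩)
    · exact IsP.aev (K := K) ((A b).eqn j) (g := fun c z => sv z b c) (fun c => IsP.var _)
    · change IsP (fun z => if c < i0 b then sv z b c else if c = i0 b then sv z b c - 1 else 0)
      split_ifs
      · exact IsP.var _
      · exact (IsP.var _).sub (IsP.const 1)
      · exact IsP.const 0
    · exact (IsP.prod _ (fun p => (IsP.var _).pow _)).sub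
        (IsP.sum _ (fun l => (IsP.var _).mul (IsP.var _)))
    · refine (IsP.prod _ (fun p => IsP.pow ?_ _)).sub
        (IsP.sum _ (fun l => (IsP.var _).mul (IsP.var _)))
      exact IsP_law (K := K) (A := A) p.1 p.2 (J p.1)
        (u := fun c z => pv x (Sum.inr j) z p.1 c) (v := fun c z => sv z p.1 c)
        (fun c => IsP.var _) (fun c => IsP.var _)
  obtain ⟨C, hC, hsol⟩ := ssl' hH f hf
  choose Cx hCx0 hCx using fun x : X => hG_add hH (x : Bp A Ω)
  refine ⟨∑ _b : Fin β, ∑ _c : Fin n, C * (1 + ∑ x, ∑ _r : Fin k1 ⊕ Fin k2, Cx x * 2), ?_,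
    fun a t y R hR ha ht hy hrk => ?_⟩
  · have : 0 ≤ ∑ x, ∑ _r : Fin k1 ⊕ Fin k2, Cx x * 2 := Finset.sum_nonneg (fun x _ =>
      Finset.sum_nonneg (fun r _ => mul_nonneg (hCx0 x) zero_le_two))
    positivity
  -- the parameters
  let c0 : μ → Ω := fun q => ((q.1.1 + Sum.elim a t q.2.1) q.2.2.1).1 q.2.2.2
  have hc0 : ∑ q, H (c0 q) ≤ (∑ x, ∑ _r : Fin k1 ⊕ Fin k2, Cx x * 2) * R := by
    have h1 : ∑ q, H (c0 q) = ∑ x : X, ∑ r, hG H ((x : Bp A Ω) + Sum.elim a t r) := by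
      rw [Fintype.sum_prod_type]
      refine Finset.sum_congr rfl (fun x _ => ?_)
      rw [Fintype.sum_prod_type]
      refine Finset.sum_congr rfl (fun r _ => ?_)
      rw [Fintype.sum_prod_type]
      rfl
    rw [h1, Finset.sum_mul]
    refine Finset.sum_le_sum (fun x _ => ?_)
    rw [Finset.sum_mul]
    refine Finset.sum_le_sum (fun r _ => ?_)
    have h2 := hCx x (Sum.elim a t r)
    have h3 : hG H (Sum.elim a t r) ≤ R := by
      cases r with
      | inl i => exact ha i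
      | inr j => exact ht j
    have h4 : Cx x * (1 + hG H (Sum.elim a t r)) ≤ Cx x * (2 * R) :=
      mul_le_mul_of_nonneg_left (by linarith) (hCx0 x)
    linarith
  -- the given solution
  have hsolv : ∃ x : ν → Ω, ∀ q, f q (Sum.elim c0 x) = 0 := by
    have h1 : ∀ x : X, ∃ w : Fin k → Mon β n D → Ω,
        Sp D (x : Bp A Ω) (Set.range a ∪ (fun u => u + y) '' Set.range t) ≤
          Submodule.span Ω (Set.range w) :=
      fun x => exists_gen _ ((Rx_le_rk D _ _).trans hrk)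
    choose w hw using h1
    have h2 : ∀ (x : X) (i : Fin k1), ∃ c : Fin k → Ω,
        ∑ l, c l • w x l = phi D (vc ((x : Bp A Ω) + a i)) := by
      intro x i
      have h3 : phi D (vc ((x : Bp A Ω) + a i)) ∈ Submodule.span Ω (Set.range (w x)) :=
        hw x (Submodule.subset_span ⟨a i, Or.inl ⟨i, rfl⟩, rfl⟩)
      exact (Submodule.mem_span_range_iff_exists_fun Ω).1 h3
    choose c1 hc1 using h2
    have h3 : ∀ (x : X) (q : Fin k2 × (Fin β → Fin n)), ∃ c : Fin k → Ω,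
        ∑ l, c l • w x l = phi D (fun b c => ev ((A b).Λ c (q.2 b))
          ![(((x : Bp A Ω) + t q.1) b).1, (y b).1]) := by
      intro x q
      have h4 : phi D (vc ((x : Bp A Ω) + (t q.1 + y))) ∈ Submodule.span Ω (Set.range (w x)) :=
        hw x (Submodule.subset_span ⟨t q.1 + y, Or.inr ⟨t q.1, ⟨q.1, rfl⟩, rfl⟩, rfl⟩)
      choose s hs hs' using fun b => (A b).Λ_spec Ω (((x : Bp A Ω) + t q.1) b) (y b)
      have h5 : (fun b c => ev ((A b).Λ c (q.2 b)) ![(((x : Bp A Ω) + t q.1) b).1, (y b).1]) =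
          fun b => (s b * (((x : Bp A Ω) + t q.1 - y) b).1 (q.2 b)) •
            vc ((x : Bp A Ω) + (t q.1 + y)) b := by
        funext b c
        rw [hs' b c (q.2 b)]
        rw [← add_assoc]
        change s b * ((((x : Bp A Ω) + t q.1 + y) b).1 c *
          (((x : Bp A Ω) + t q.1 - y) b).1 (q.2 b)) =
          (s b * (((x : Bp A Ω) + t q.1 - y) b).1 (q.2 b)) * (((x : Bp A Ω) + t q.1 + y) b).1 c
        ring
      rw [h5, phi_smul]
      exact (Submodule.mem_span_range_iff_exists_fun Ω).1 (Submodule.smul_mem _ _ h4)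
    choose c2 hc2 using h3
    refine ⟨Sum.elim (fun p => (y p.1).1 p.2) (Sum.elim (fun q => w q.1 q.2.1 q.2.2)
      (fun q => Sum.elim (fun i => c1 q.1 i q.2.2) (fun r => c2 q.1 r q.2.2) q.2.1)), ?_⟩
    rintro (⟨b, j⟩ | ⟨b, c⟩ | ⟨x, i, m⟩ | ⟨x, ⟨j, J⟩, m⟩)
    · exact (y b).2.2 j
    · change (if c < i0 b then (y b).1 c else if c = i0 b then (y b).1 c - 1 else 0) = 0
      split_ifs with e1 e2
      · exact (hy b).2 c e1
      · rw [e2, (hy b).1, sub_self]
      · rfl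
    · change phi D (vc ((x : Bp A Ω) + a i)) m - ∑ l, c1 x i l * w x l m = 0
      rw [← hc1 x i, Finset.sum_apply, sub_eq_zero]
      rfl
    · change phi D (fun b c => ev ((A b).Λ c (J b))
        ![(((x : Bp A Ω) + t j) b).1, (y b).1]) m - ∑ l, c2 x (j, J) l * w x l m = 0
      rw [← hc2 x (j, J), Finset.sum_apply, sub_eq_zero]
      rfl
  obtain ⟨z, hz, hzH⟩ := hsol c0 hsolv
  -- the new translation
  have hs1 : ∀ b, Normed (fun c => z (Sum.inl (b, c))) := by
    intro b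
    refine ⟨i0 b, ?_, fun j hj => ?_⟩
    · have h1 : (if i0 b < i0 b then z (Sum.inl (b, i0 b)) else if i0 b = i0 b then
          z (Sum.inl (b, i0 b)) - 1 else 0) = 0 := hz (Sum.inr (Sum.inl (b, i0 b)))
      rw [if_neg (lt_irrefl _), if_pos rfl] at h1
      exact sub_eq_zero.1 h1
    · have h1 : (if j < i0 b then z (Sum.inl (b, j)) else if j = i0 b then
          z (Sum.inl (b, j)) - 1 else 0) = 0 := hz (Sum.inr (Sum.inl (b, j)))
      rw [if_pos hj] at h1
      exact h1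
  let s : Bp A Ω := fun b => ⟨fun c => z (Sum.inl (b, c)), hs1 b, fun j => hz (Sum.inl ⟨b, j⟩)⟩
  refine ⟨s, ?_, ?_⟩
  · unfold hG
    rw [Finset.sum_mul]
    refine Finset.sum_le_sum (fun b _ => ?_)
    rw [Finset.sum_mul]
    refine Finset.sum_le_sum (fun c _ => ?_)
    refine (hzH (Sum.inl (b, c))).trans ?_
    rw [mul_assoc, add_mul, one_mul]
    refine mul_le_mul_of_nonneg_left ?_ hC
    linarith
  · obtain ⟨x, hxX, hx⟩ := hX (Set.range a ∪ (fun u => u + s) '' Set.range t)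
    rw [← hx]
    let w : Fin k → Mon β n D → Ω := fun l m => z (Sum.inr (Sum.inl (⟨x, hxX⟩, l, m)))
    have h1 : Sp D x (Set.range a ∪ (fun u => u + s) '' Set.range t) ≤
        Submodule.span Ω (Set.range w) := by
      refine Submodule.span_le.2 ?_
      rintro _ ⟨_, ⟨i, rfl⟩ | ⟨_, ⟨j, rfl⟩, rfl⟩, rfl⟩
      · refine (Submodule.mem_span_range_iff_exists_fun Ω).2
          ⟨fun l => z (Sum.inr (Sum.inr (⟨x, hxX⟩, Sum.inl i, l))), ?_⟩
        funext m
        have h2 : phi D (vc (x + a i)) m - ∑ l, z (Sum.inr (Sum.inr (⟨x, hxX⟩, Sum.inl i, l))) *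
          w l m = 0 := hz (Sum.inr (Sum.inr (Sum.inl (⟨x, hxX⟩, i, m))))
        rw [Finset.sum_apply]
        exact (sub_eq_zero.1 h2).symm
      · have hJ : ∀ b : Fin β, ∃ c, ((x + t j - s) b).1 c ≠ 0 := fun b => by
          obtain ⟨c, hc, -⟩ := ((x + t j - s) b).2.1
          exact ⟨c, by rw [hc]; exact one_ne_zero⟩
        choose J hJ using hJ
        choose r hr hr' using fun b => (A b).Λ_spec Ω ((x + t j) b) (s b)
        have h5 : (fun b c => ev ((A b).Λ c (J b)) ![((x + t j) b).1, (s b).1]) =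
            fun b => (r b * ((x + t j - s) b).1 (J b)) • vc (x + (t j + s)) b := by
          funext b c
          rw [hr' b c (J b)]
          rw [← add_assoc]
          change r b * (((x + t j + s) b).1 c * ((x + t j - s) b).1 (J b)) =
            (r b * ((x + t j - s) b).1 (J b)) * ((x + t j + s) b).1 c
          ring
        have h6 : phi D (fun b c => ev ((A b).Λ c (J b)) ![((x + t j) b).1, (s b).1]) ∈
            Submodule.span Ω (Set.range w) := by
          refine (Submodule.mem_span_range_iff_exists_fun Ω).2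
            ⟨fun l => z (Sum.inr (Sum.inr (⟨x, hxX⟩, Sum.inr (j, J), l))), ?_⟩
          funext m
          have h2 : phi D (fun b c => ev ((A b).Λ c (J b)) ![((x + t j) b).1, (s b).1]) m -
            ∑ l, z (Sum.inr (Sum.inr (⟨x, hxX⟩, Sum.inr (j, J), l))) * w l m = 0 :=
            hz (Sum.inr (Sum.inr (Sum.inr (⟨x, hxX⟩, (j, J), m))))
          rw [Finset.sum_apply]
          exact (sub_eq_zero.1 h2).symm
        rw [h5, phi_smul] at h6
        have h7 : (∏ b, (r b * ((x + t j - s) b).1 (J b)) ^ D) ≠ 0 :=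
          Finset.prod_ne_zero_iff.2 (fun b _ => pow_ne_zero _ (mul_ne_zero (hr b) (hJ b)))
        have h8 := Submodule.smul_mem _ (∏ b, (r b * ((x + t j - s) b).1 (J b)) ^ D)⁻¹ h6
        rw [smul_smul, inv_mul_cancel₀ h7, one_smul] at h8
        exact h8
    have h2 := Submodule.finrank_mono h1
    have h3 := finrank_range_le_card (R := Ω) w
    rw [Fintype.card_fin] at h3
    exact h2.trans h3

end

end Pool.Agent.H14.PL
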