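import Pool.Agent.H14.PL.Fl

/-!
# Sets of large rank far from each other
-/

set_option autoImplicit false
set_option linter.unusedSectionVars false

open MvPolynomial Pool.Agent.TH954.X Pool.Agent.TH954.V Pool.Agent.TH954.Z Pool.Agent.H14.LB

namespace Pool.Agent.H14.PL

section

variable {K : Type} [Field K] {n β : ℕ} {Ω : Type} [Field Ω] [IsAlgClosed Ω] [Algebra K Ω]

theorem fl1 (A : Fin β → AbV K n) {H : Ω → ℝ} (hH : Ht Ω H) (D : ℕ) :
    ∃ C : ℝ, 0 ≤ C ∧ ∀ (S T : Set (Bp A Ω)) (y : Bp A Ω) (R : ℝ), 1 ≤ R →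
      (∀ a ∈ S, hG H a ≤ R) → (∀ t ∈ T, hG H t ≤ R) → rk D T = rk D S →
      rk D (S ∪ (fun u => u + y) '' T) = rk D S →
      ∃ s : Bp A Ω, hG H s ≤ C * R ∧ ∀ b ∈ cl D S, ∀ m : ℤ, b + m • (y - s) ∈ cl D S := by
  classical
  obtain ⟨X, hXf, hX⟩ := test_rk A Ω D
  choose C hC0 hC using fun q : (Fin (Fintype.card (Mon β n D) + 1) ×
    Fin (Fintype.card (Mon β n D) + 1)) × Fin (Fintype.card (Mon β n D) + 1) ×
      (Fin β → Fin n) => fl0_fix (A := A) hH D X hXf hX q.1.1 q.1.2 q.2.1 q.2.2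
  refine ⟨∑ q, C q, Finset.sum_nonneg (fun q _ => hC0 q), fun S T y R hR hS hT hTS hST => ?_⟩
  obtain ⟨k1, a, ha, hka⟩ := exists_sub D S
  obtain ⟨k2, t, ht, hkt⟩ := exists_sub D T
  choose i0 hi0 using fun b => (y b).2.1
  have hsub : Set.range a ∪ (fun u => u + y) '' Set.range t ⊆ S ∪ (fun u => u + y) '' T := by
    refine Set.union_subset_union ?_ (Set.image_mono ?_)
    · rintro _ ⟨i, rfl⟩
      exact ha i
    · rintro _ ⟨i, rfl⟩
      exact ht i
  have hle : rk D (Set.range a ∪ (fun u => u + y) '' Set.range t) ≤ rk D S := by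
    rw [← hST]
    exact rk_mono hsub
  obtain ⟨s, hs1, hs2⟩ := hC ((k1, k2), (⟨rk D S, Nat.lt_succ_of_le (rk_le D S)⟩, i0)) a t y R hR
    (fun i => hS _ (ha i)) (fun i => hT _ (ht i)) hi0 hle
  have hs2' : rk D (Set.range a ∪ (fun u => u + s) '' Set.range t) ≤ rk D S := hs2
  refine ⟨s, hs1.trans (mul_le_mul_of_nonneg_right (Finset.single_le_sum (f := C)
    (fun q _ => hC0 q) (Finset.mem_univ _)) (by linarith)), ?_⟩
  -- the closures
  have e1 : cl D S = cl D (Set.range a) := cl_eq (by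
    rintro _ ⟨i, rfl⟩
    exact ha i) hka.symm
  have e2 : rk D (Set.range a ∪ (fun u => u + s) '' Set.range t) = rk D S :=
    le_antisymm hs2' (by
      rw [← hka]
      exact rk_mono Set.subset_union_left)
  have e3 : cl D (Set.range a ∪ (fun u => u + s) '' Set.range t) = cl D (Set.range a) :=
    cl_eq Set.subset_union_left (by rw [e2, hka])
  have e4 : cl D (Set.range a ∪ (fun u => u + s) '' Set.range t) =
      cl D ((fun u => u + s) '' Set.range t) :=
    cl_eq Set.subset_union_right (by rw [e2, rk_add, hkt, hTS])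
  have e5 : cl D (S ∪ (fun u => u + y) '' T) = cl D S := cl_eq Set.subset_union_left hST
  have e6 : cl D (S ∪ (fun u => u + y) '' T) = cl D ((fun u => u + y) '' Set.range t) :=
    cl_eq ((Set.image_mono (by
      rintro _ ⟨i, rfl⟩
      exact ht i)).trans Set.subset_union_right) (by rw [hST, rk_add, hkt, hTS])
  have f1 : cl D S = cl D ((fun u => u + s) '' Set.range t) := by rw [e1, ← e3, e4]
  have f2 : cl D S = cl D ((fun u => u + y) '' Set.range t) := by rw [← e5, e6]
  have g1 : ∀ b ∈ cl D S, b + (y - s) ∈ cl D S := by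
    intro b hb
    rw [f1] at hb
    have h1 := cl_add hb (y - s)
    rw [Set.image_image] at h1
    rw [f2]
    have h2 : (fun u : Bp A Ω => u + s + (y - s)) = fun u => u + y := by
      funext u
      abel
    rw [h2] at h1
    exact h1
  have g2 : ∀ b ∈ cl D S, b + -(y - s) ∈ cl D S := by
    intro b hb
    rw [f2] at hb
    have h1 := cl_add hb (-(y - s))
    rw [Set.image_image] at h1
    rw [f1]
    have h2 : (fun u : Bp A Ω => u + y + -(y - s)) = fun u => u + s := by
      funext u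
      abel
    rw [h2] at h1
    exact h1
  intro b hb m
  induction m using Int.induction_on with
  | zero => rwa [zero_smul, add_zero]
  | succ i ih =>
    have h1 := g1 _ ih
    have h2 : b + (i : ℤ) • (y - s) + (y - s) = b + ((i : ℤ) + 1) • (y - s) := by
      rw [add_smul, one_smul, add_assoc]
    rwa [h2] at h1
  | pred i ih =>
    have h1 := g2 _ ih
    have h2 : b + (-(i : ℤ)) • (y - s) + -(y - s) = b + (-(i : ℤ) - 1) • (y - s) := by
      rw [sub_smul, one_smul, add_assoc, sub_eq_add_neg (-(i : ℤ) • (y - s))]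
    rwa [h2] at h1

/-- **Two parts of large rank far from each other.** -/
theorem far (A : Fin β → AbV K n) {H : Ω → ℝ} (hH : Ht Ω H) (D : ℕ) :
    ∃ C : ℝ, 0 ≤ C ∧ ∀ (F : MvPolynomial (Fin β × Fin n) Ω) (σ : Fin β → ℕ), MH σ F →
      (∀ b, σ b * 2 ≤ D) → ∀ S S1 S2 : Set (Bp A Ω), S1 ⊆ S → S2 ⊆ S →
      (∀ P ∈ S, ev F (vc P) = 0) → rk D S1 = rk D S → rk D S2 = rk D S →
      ∀ (x y : Bp A Ω) (R : ℝ), y ∈ S2 → 1 ≤ R → (∀ P ∈ S1, hG H (P - x) ≤ R) →
      (∀ P ∈ S2, hG H (P - y) ≤ R) →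
      ∃ s : Bp A Ω, hG H s ≤ C * R ∧ ∀ m : ℤ, ev F (vc (y + m • (y - x - s))) = 0 := by
  obtain ⟨C, hC, h⟩ := fl1 A hH D
  refine ⟨C, hC, fun F σ hF hσ S S1 S2 h1 h2 hS hr1 hr2 x y R hy hR hx1 hy2 => ?_⟩
  have e0 : (fun a : Bp A Ω => a + -x) '' S1 ∪ (fun u => u + (y - x)) ''
      ((fun a => a + -y) '' S2) = (fun a => a + -x) '' (S1 ∪ S2) := by
    rw [Set.image_union, Set.image_image]
    congr 2
    funext u
    abel
  have e1 : rk D (S1 ∪ S2) = rk D S :=
    le_antisymm (rk_mono (Set.union_subset h1 h2)) (by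
      rw [← hr1]
      exact rk_mono Set.subset_union_left)
  obtain ⟨s, hs, hcl⟩ := h ((fun a => a + -x) '' S1) ((fun a => a + -y) '' S2) (y - x) R hR
    (by
      rintro _ ⟨P, hP, rfl⟩
      have := hx1 P hP
      rwa [sub_eq_add_neg] at this)
    (by
      rintro _ ⟨P, hP, rfl⟩
      have := hy2 P hP
      rwa [sub_eq_add_neg] at this)
    (by rw [rk_add, rk_add, hr1, hr2]) (by rw [e0, rk_add, rk_add, e1, hr1])
  refine ⟨s, hs, fun m => ?_⟩
  have g1 : y + -x ∈ cl D ((fun a => a + -x) '' S1) := by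
    refine subset_cl D (T := (fun a => a + -x) '' (S1 ∪ S2))
      (Set.image_mono Set.subset_union_left) (by rw [rk_add, rk_add, e1, hr1]) ?_
    exact ⟨y, Or.inr hy, rfl⟩
  have g2 := cl_add (hcl _ g1 m) x
  rw [Set.image_image] at g2
  have g3 : (fun a : Bp A Ω => a + -x + x) '' S1 = S1 := by
    have : (fun a : Bp A Ω => a + -x + x) = id := by
      funext a
      simp
    rw [this, Set.image_id]
  rw [g3, ← cl_eq h1 hr1.symm] at g2
  have g4 : y + -x + m • (y - x - s) + x = y + m • (y - x - s) := by abel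
  rw [g4] at g2
  exact van hσ hF hS g2

end

end Pool.Agent.H14.PL
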