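import Pool.Agent.H14.PL.Ssl
import Pool.Graph.R_seed8.Helper259.HtExt

/-!
# The absolute height of algebraic numbers
-/

set_option autoImplicit false

open Height

namespace Pool.Agent.H14.PL

section root

variable {L : Type} [Field L] [AdmissibleAbsValues L]

lemma logHeight_pows (z : L) (m : ℕ) :
    logHeight (fun j : Fin (m + 1) => z ^ (j : ℕ)) ≤ m * logHeight₁ z := by
  induction m with
  | zero =>
    have : Subsingleton (Fin (0 + 1)) := by
      change Subsingleton (Fin 1)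
      infer_instance
    rw [logHeight_eq_zero_of_subsingleton]
    simp
  | succ m ih =>
    have h1 : (fun j : Fin (m + 1 + 1) => z ^ (j : ℕ)) =
        (fun a : Fin (m + 1) × Fin 2 => z ^ (a.1 : ℕ) * (![z, 1] : Fin 2 → L) a.2) ∘
          (Fin.cases (0, 1) (fun j => (j, 0))) := by
      funext j
      refine Fin.cases ?_ (fun j => ?_) j
      · simp
      · simp [pow_succ]
    rw [h1]
    refine (logHeight_comp_le _ _).trans ?_
    have hx : (fun j : Fin (m + 1) => z ^ (j : ℕ)) ≠ 0 := by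
      intro h
      have := congrFun h 0
      simp at this
    have hy : (![z, 1] : Fin 2 → L) ≠ 0 := by
      intro h
      have := congrFun h 1
      simp at this
    rw [logHeight_fun_mul_eq hx hy, ← logHeight₁_eq_logHeight]
    push_cast
    linarith

lemma logHeight_mat {d : ℕ} (f : Fin d → L) :
    logHeight (fun a : Fin (d + 1) × Fin d => Fin.lastCases (motive := fun _ => Fin d → L)
      (fun i => -f i) (fun j i => if j = i then 1 else 0) a.1 a.2) ≤ ∑ i, logHeight₁ (f i) := by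
  classical
  set y : (Fin d → Fin 2) → L := fun I => ∏ i, (![-f i, 1] : Fin 2 → L) (I i) with hy
  set idx : Fin (d + 1) × Fin d → (Fin d → Fin 2) ⊕ Unit := fun a =>
    Fin.lastCases (motive := fun _ => Fin d → (Fin d → Fin 2) ⊕ Unit)
      (fun i => Sum.inl (fun i' => if i' = i then 0 else 1))
      (fun j i => if j = i then Sum.inl (fun _ => 1) else Sum.inr ()) a.1 a.2 with hidx
  have h1 : (fun a : Fin (d + 1) × Fin d => Fin.lastCases (motive := fun _ => Fin d → L)
      (fun i => -f i) (fun j i => if j = i then 1 else 0) a.1 a.2) =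
      (Sum.elim y (0 : Unit → L)) ∘ idx := by
    funext a
    obtain ⟨j, i⟩ := a
    refine Fin.lastCases ?_ (fun j => ?_) j
    · simp only [hidx, Fin.lastCases_last, Function.comp, Sum.elim_inl, hy]
      rw [Finset.prod_eq_single i]
      · simp
      · intro b _ hb
        simp [hb]
      · simp
    · simp only [hidx, Fin.lastCases_castSucc, Function.comp]
      split_ifs with h
      · simp [hy]
      · simp
  rw [h1]
  refine (logHeight_comp_le _ _).trans ?_
  rw [logHeight_sumElim_zero_eq, hy, logHeight_fun_prod_eq]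
  · refine Finset.sum_le_sum (fun i _ => ?_)
    rw [← logHeight₁_eq_logHeight, logHeight₁_neg]
  · intro i h
    have := congrFun h 1
    simp at this

/-- the height of a root of a monic polynomial -/
lemma logHeight_root {d : ℕ} (f : Fin d → L) (z : L)
    (h : z ^ d + ∑ i, f i * z ^ (i : ℕ) = 0) :
    logHeight₁ z ≤ ∑ i, logHeight₁ (f i) + totalWeight L * Real.log d := by
  rcases Nat.eq_zero_or_pos d with hd | hd
  · subst hd
    simp at h
  obtain ⟨m, rfl⟩ : ∃ m, d = m + 1 := ⟨d - 1, by omega⟩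
  set A : Fin (m + 1 + 1) × Fin (m + 1) → L :=
    fun a => Fin.lastCases (motive := fun _ => Fin (m + 1) → L)
      (fun i => -f i) (fun j i => if j = i then 1 else 0) a.1 a.2 with hA
  have h1 := logHeight_linearMap_apply_le A (fun j : Fin (m + 1) => z ^ (j : ℕ))
  have h2 : (fun j => ∑ i, A (j, i) * z ^ (i : ℕ)) =
      fun j : Fin (m + 1 + 1) => z ^ (j : ℕ) := by
    funext j
    refine Fin.lastCases ?_ (fun j => ?_) j
    · simp only [hA, Fin.lastCases_last, Fin.val_last]
      have h3 : ∑ i : Fin (m + 1), -f i * z ^ (i : ℕ) = -∑ i : Fin (m + 1), f i * z ^ (i : ℕ) := by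
        rw [← Finset.sum_neg_distrib]
        exact Finset.sum_congr rfl (fun i _ => by ring)
      rw [h3]
      linear_combination -h
    · simp [hA]
  rw [h2] at h1
  have h3 : ((m + 1 : ℕ) : ℝ) * logHeight₁ z ≤
      logHeight (fun j : Fin (m + 1 + 1) => z ^ (j : ℕ)) := by
    have h4 := logHeight_comp_le (![Fin.last (m + 1), 0] : Fin 2 → Fin (m + 1 + 1))
      (fun j : Fin (m + 1 + 1) => z ^ (j : ℕ))
    have h5 : (fun j : Fin (m + 1 + 1) => z ^ (j : ℕ)) ∘
        (![Fin.last (m + 1), 0] : Fin 2 → Fin (m + 1 + 1)) = ![z ^ (m + 1), 1] := by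
      funext j
      fin_cases j <;> simp
    rw [h5, ← logHeight₁_eq_logHeight, logHeight₁_pow] at h4
    exact h4
  have h4 := logHeight_pows z m
  have h5 := logHeight_mat f
  rw [Nat.card_eq_fintype_card, Fintype.card_fin] at h1
  push_cast at h3
  push_cast at h1 ⊢
  linarith

end root

section abs

open NumberField IntermediateField

/-- the absolute height of the image of an element of a number field -/
lemma habs_map {L Ω : Type} [Field L] [NumberField L] [Field Ω] [CharZero Ω] (φ : L →+* Ω)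
    (y : L) : absLogHeight₁ (φ y) = logHeight₁ y / Module.finrank ℚ L := by
  have hx : IsIntegral ℚ (φ y) := by
    have h1 : IsIntegral ℚ y := Algebra.IsIntegral.isIntegral y
    exact h1.map (φ.toRatAlgHom)
  set x := φ y with hxdef
  have : FiniteDimensional ℚ ℚ⟮x⟯ := adjoin.finiteDimensional hx
  have : NumberField ℚ⟮x⟯ := {}
  set φ' : L →ₐ[ℚ] Ω := φ.toRatAlgHom with hφ'
  have hle : ℚ⟮x⟯ ≤ φ'.fieldRange := by
    rw [adjoin_simple_le_iff]
    exact ⟨y, rfl⟩
  let ψ : ℚ⟮x⟯ →ₐ[ℚ] L :=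
    (AlgEquiv.ofInjectiveField φ').symm.toAlgHom.comp (IntermediateField.inclusion hle)
  have hψ : ψ (AdjoinSimple.gen ℚ x) = y := by
    change (AlgEquiv.ofInjectiveField φ').symm _ = y
    rw [AlgEquiv.symm_apply_eq]
    apply Subtype.ext
    rfl
  letI : Algebra ℚ⟮x⟯ L := ψ.toRingHom.toAlgebra
  have h1 : logHeight₁ y = Module.finrank ℚ⟮x⟯ L * logHeight₁ (AdjoinSimple.gen ℚ x) := by
    rw [logHeight₁_eq_logHeight, logHeight₁_eq_logHeight,
      ← Pool.Agent.Helper259.HtExt.logHeight_ext (L := L)]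
    congr 1
    funext i
    fin_cases i
    · exact hψ.symm
    · exact (map_one (algebraMap ℚ⟮x⟯ L)).symm
  have h2 : Module.finrank ℚ ℚ⟮x⟯ * Module.finrank ℚ⟮x⟯ L = Module.finrank ℚ L :=
    Module.finrank_mul_finrank ℚ ℚ⟮x⟯ L
  have h3 : (Module.finrank ℚ L : ℝ) = Module.finrank ℚ ℚ⟮x⟯ * Module.finrank ℚ⟮x⟯ L := by
    exact_mod_cast h2.symm
  have h4 : (Module.finrank ℚ⟮x⟯ L : ℝ) ≠ 0 := by
    intro h
    have h5 : 0 < Module.finrank ℚ L := Module.finrank_pos
    have h6 : (0 : ℝ) < Module.finrank ℚ L := by exact_mod_cast h5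
    rw [h3, h, mul_zero] at h6
    exact lt_irrefl _ h6
  have h5 : (Module.finrank ℚ ℚ⟮x⟯ : ℝ) ≠ 0 := by
    have : 0 < Module.finrank ℚ ℚ⟮x⟯ := Module.finrank_pos
    exact_mod_cast this.ne'
  have h6 : absLogHeight₁ x = logHeight₁ (AdjoinSimple.gen ℚ x) / Module.finrank ℚ ℚ⟮x⟯ := by
    unfold absLogHeight₁ absMulHeight₁
    rw [dif_pos hx, Real.log_rpow (mulHeight₁_pos _)]
    rw [logHeight₁_eq_log_mulHeight₁, div_eq_inv_mul]
  rw [h6, h1, h3]
  field_simp

/-- finitely many algebraic elements are in a number field -/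
lemma exists_nf {Ω : Type} [Field Ω] [CharZero Ω] [Algebra.IsAlgebraic ℚ Ω] {ι : Type} [Finite ι]
    (a : ι → Ω) : ∃ L : IntermediateField ℚ Ω, NumberField L ∧ ∀ i, a i ∈ L := by
  refine ⟨adjoin ℚ (Set.range a), ?_, fun i => subset_adjoin ℚ _ ⟨i, rfl⟩⟩
  have : FiniteDimensional ℚ (adjoin ℚ (Set.range a)) :=
    finiteDimensional_adjoin (fun x _ => Algebra.IsIntegral.isIntegral x)
  exact {}

theorem ht_abs (Ω : Type) [Field Ω] [CharZero Ω] [Algebra.IsAlgebraic ℚ Ω] :
    Ht Ω (fun z => absLogHeight₁ z) := by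
  refine ⟨fun a => ?_, ⟨Real.log 2, fun a b => ?_⟩, fun a b => ?_, fun a => ?_, fun d => ?_⟩
  · obtain ⟨L, hL, h⟩ := exists_nf (fun _ : Unit => a)
    have h1 := habs_map L.val.toRingHom ⟨a, h ()⟩
    have h2 : (L.val.toRingHom ⟨a, h ()⟩ : Ω) = a := rfl
    rw [h2] at h1
    rw [h1]
    exact div_nonneg (zero_le_logHeight₁ _) (Nat.cast_nonneg _)
  · obtain ⟨L, hL, h⟩ := exists_nf (![a, b] : Fin 2 → Ω)
    have h1 := habs_map L.val.toRingHom ⟨a, h 0⟩
    have h2 := habs_map L.val.toRingHom ⟨b, h 1⟩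
    have h3 := habs_map L.val.toRingHom (⟨a, h 0⟩ + ⟨b, h 1⟩)
    have e1 : (L.val.toRingHom ⟨a, h 0⟩ : Ω) = a := rfl
    have e2 : (L.val.toRingHom ⟨b, h 1⟩ : Ω) = b := rfl
    rw [map_add, e1, e2] at h3
    rw [e1] at h1
    rw [e2] at h2
    rw [h1, h2, h3]
    have h4 := logHeight₁_add_le (⟨a, h 0⟩ : L) ⟨b, h 1⟩
    have h5 : (0 : ℝ) < Module.finrank ℚ L := Nat.cast_pos.2 Module.finrank_pos
    rw [totalWeight_eq_finrank] at h4
    rw [div_le_iff₀ h5, add_mul, add_mul, div_mul_cancel₀ _ h5.ne', div_mul_cancel₀ _ h5.ne']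
    linarith
  · obtain ⟨L, hL, h⟩ := exists_nf (![a, b] : Fin 2 → Ω)
    have h1 := habs_map L.val.toRingHom ⟨a, h 0⟩
    have h2 := habs_map L.val.toRingHom ⟨b, h 1⟩
    have h3 := habs_map L.val.toRingHom (⟨a, h 0⟩ * ⟨b, h 1⟩)
    have e1 : (L.val.toRingHom ⟨a, h 0⟩ : Ω) = a := rfl
    have e2 : (L.val.toRingHom ⟨b, h 1⟩ : Ω) = b := rfl
    rw [map_mul, e1, e2] at h3
    rw [e1] at h1
    rw [e2] at h2
    rw [h1, h2, h3]
    have h4 := logHeight₁_mul_le (⟨a, h 0⟩ : L) ⟨b, h 1⟩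
    have h5 : (0 : ℝ) < Module.finrank ℚ L := Nat.cast_pos.2 Module.finrank_pos
    rw [← add_div]
    exact div_le_div_of_nonneg_right h4 h5.le
  · obtain ⟨L, hL, h⟩ := exists_nf (fun _ : Unit => a)
    have h1 := habs_map L.val.toRingHom ⟨a, h ()⟩
    have h3 := habs_map L.val.toRingHom (⟨a, h ()⟩⁻¹)
    have h2 : (L.val.toRingHom ⟨a, h ()⟩ : Ω) = a := rfl
    rw [map_inv₀, h2, logHeight₁_inv] at h3
    rw [h2] at h1
    rw [h1, h3]
  · refine ⟨Real.log d, fun f z hz => ?_⟩
    obtain ⟨L, hL, h⟩ := exists_nf (fun o : Option (Fin d) => Option.elim o z f)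
    have h1 := habs_map L.val.toRingHom ⟨z, h none⟩
    have h2 := fun i => habs_map L.val.toRingHom ⟨f i, h (some i)⟩
    have e1 : (L.val.toRingHom ⟨z, h none⟩ : Ω) = z := rfl
    have e2 : ∀ i, (L.val.toRingHom ⟨f i, h (some i)⟩ : Ω) = f i := fun i => rfl
    rw [e1] at h1
    simp_rw [e2] at h2
    simp_rw [h2]
    rw [h1]
    have h3 : (⟨z, h none⟩ : L) ^ d + ∑ i, (⟨f i, h (some i)⟩ : L) *
        (⟨z, h none⟩ : L) ^ (i : ℕ) = 0 := by
      apply L.val.injective
      rw [map_add, map_pow, map_sum, map_zero]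
      simp_rw [map_mul, map_pow]
      exact hz
    have h4 := logHeight_root _ _ h3
    have h5 : (0 : ℝ) < Module.finrank ℚ L := Nat.cast_pos.2 Module.finrank_pos
    rw [totalWeight_eq_finrank] at h4
    rw [div_le_iff₀ h5, add_mul, ← Finset.sum_div, div_mul_cancel₀ _ h5.ne']
    linarith

end abs

end Pool.Agent.H14.PL
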