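import Pool.Agent.H14.PL.Habs
import Pool.Agent.H14.PL.Fl2
import Pool.Agent.H14.LB.RatX

/-!
# Heights of points over the algebraic closure
-/

set_option autoImplicit false
set_option linter.unusedSectionVars false

open MvPolynomial Pool.Agent.TH954.X Pool.Agent.TH954.V Pool.Agent.TH954.Z Pool.Agent.H14.LB
open NumberField Height

namespace Pool.Agent.H14.PL

section

variable {K : Type} [Field K] [NumberField K] {n β : ℕ} {A : Fin β → AbV K n}

lemma logHeight_le_sum {L : Type} [Field L] [NumberField L] (v : Fin n → L) :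
    logHeight v ≤ ∑ c, logHeight₁ (v c) := by
  classical
  set y : (Fin n → Fin 2) → L := fun I => ∏ c, (![v c, 1] : Fin 2 → L) (I c) with hy
  have h1 : v = y ∘ (fun c c' => if c' = c then 0 else 1) := by
    funext c
    simp only [hy, Function.comp]
    rw [Finset.prod_eq_single c]
    · simp
    · intro b _ hb
      simp [hb]
    · simp
  have h2 : logHeight v ≤ logHeight y := by
    conv_lhs => rw [h1]
    exact logHeight_comp_le _ _
  refine h2.trans ?_
  rw [hy, logHeight_fun_prod_eq]
  · exact Finset.sum_le_sum (fun c _ => by rw [← logHeight₁_eq_logHeight])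
  · intro c h
    have := congrFun h 1
    simp at this

lemma logHeight₁_le {L : Type} [Field L] [NumberField L] {v : Fin n → L} (hv : Normed v)
    (c : Fin n) : logHeight₁ (v c) ≤ logHeight v := by
  obtain ⟨i, hi, -⟩ := hv
  have h1 := logHeight_comp_le (![c, i] : Fin 2 → Fin n) v
  have h2 : v ∘ (![c, i] : Fin 2 → Fin n) = ![v c, 1] := by
    funext j
    fin_cases j
    · rfl
    · exact hi
  rw [h2, ← logHeight₁_eq_logHeight] at h1
  exact h1

instance : CharZero (AlgebraicClosure K) := charZero_of_injective_algebraMap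
  (algebraMap K (AlgebraicClosure K)).injective

instance : Algebra.IsAlgebraic ℚ (AlgebraicClosure K) := Algebra.IsAlgebraic.trans ℚ K _

/-- the absolute height -/
noncomputable def Ha (K : Type) [Field K] [NumberField K] : AlgebraicClosure K → ℝ :=
  fun z => absLogHeight₁ z

lemma Ha_ht (K : Type) [Field K] [NumberField K] : Ht (AlgebraicClosure K) (Ha K) :=
  ht_abs (AlgebraicClosure K)

lemma hG_le {L : Type} [Field L] [NumberField L] [Algebra K L]
    (φ : L →ₐ[K] AlgebraicClosure K) (P : Bp A L) :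
    hG (Ha K) (bcB φ P) ≤ n * (htL P / Module.finrank ℚ L) := by
  have hd : (0 : ℝ) < Module.finrank ℚ L := Nat.cast_pos.2 Module.finrank_pos
  have h1 : ∀ b c, Ha K ((bcB φ P b).1 c) ≤ logHeight (vc P b) / Module.finrank ℚ L := by
    intro b c
    have h2 := habs_map φ.toRingHom ((P b).1 c)
    have h3 : Ha K ((bcB φ P b).1 c) = logHeight₁ ((P b).1 c) / Module.finrank ℚ L := h2
    rw [h3]
    exact div_le_div_of_nonneg_right (logHeight₁_le (P b).2.1 c) hd.le
  unfold hG
  calc ∑ b, ∑ c, Ha K ((bcB φ P b).1 c)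
      ≤ ∑ b, ∑ _c : Fin n, logHeight (vc P b) / Module.finrank ℚ L :=
        Finset.sum_le_sum (fun b _ => Finset.sum_le_sum (fun c _ => h1 b c))
    _ = n * (htL P / Module.finrank ℚ L) := by
        simp only [Finset.sum_const, Finset.card_univ, Fintype.card_fin, nsmul_eq_mul]
        rw [← Finset.mul_sum, ← Finset.sum_div]
        rfl

lemma ht_le_hG {L : Type} [Field L] [NumberField L] [Algebra K L]
    (φ : L →ₐ[K] AlgebraicClosure K) (P : Bp A L) :
    htL P / Module.finrank ℚ L ≤ hG (Ha K) (bcB φ P) := by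
  have hd : (0 : ℝ) < Module.finrank ℚ L := Nat.cast_pos.2 Module.finrank_pos
  unfold hG
  have h0 : htL P / Module.finrank ℚ L = ∑ b, logHeight (vc P b) / Module.finrank ℚ L := by
    rw [← Finset.sum_div]
    rfl
  rw [h0]
  refine Finset.sum_le_sum (fun b _ => ?_)
  have h1 : ∑ c, Ha K ((bcB φ P b).1 c) = (∑ c, logHeight₁ ((P b).1 c)) / Module.finrank ℚ L := by
    rw [Finset.sum_div]
    exact Finset.sum_congr rfl (fun c _ => habs_map φ.toRingHom ((P b).1 c))
  rw [h1]
  exact div_le_div_of_nonneg_right (logHeight_le_sum _) hd.le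

/-- a quadratic form vanishes on torsion -/
lemma q_tors {G : Type} [AddCommGroup G] (q : G → ℝ)
    (hq1 : ∀ P Q, q (P + Q) + q (P - Q) = 2 * (q P + q Q)) (x : G) (m : ℤ) (hm : m ≠ 0)
    (h : m • x = 0) : q x = 0 := by
  have h0 : q 0 = 0 := by
    have := hq1 0 0
    simp only [add_zero, sub_zero] at this
    linarith
  have hk : ∀ k : ℕ, q (k • x) = (k : ℝ) ^ 2 * q x ∧
      q ((k + 1) • x) = ((k : ℝ) + 1) ^ 2 * q x := by
    intro k
    induction k with
    | zero => simp [h0]
    | succ k ih =>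
      obtain ⟨ih1, ih2⟩ := ih
      refine ⟨by push_cast; exact ih2, ?_⟩
      have h1 := hq1 ((k + 1) • x) x
      have h2 : (k + 1) • x + x = (k + 1 + 1) • x := by rw [add_smul (k + 1) 1 x, one_smul]
      have h3 : (k + 1) • x - x = k • x := by
        rw [add_smul, one_smul, add_sub_cancel_right]
      rw [h2, h3, ih1, ih2] at h1
      push_cast
      linarith
  obtain ⟨k, hk'⟩ : ∃ k : ℕ, k ≠ 0 ∧ k • x = 0 := by
    refine ⟨m.natAbs, Int.natAbs_ne_zero.2 hm, ?_⟩
    rcases Int.natAbs_eq m with h1 | h1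
    · rw [h1] at h
      rwa [natCast_zsmul] at h
    · rw [h1, neg_smul, neg_eq_zero, natCast_zsmul] at h
      exact h
  have h1 := (hk k).1
  rw [hk'.2, h0] at h1
  have h2 : ((k : ℝ)) ^ 2 ≠ 0 := pow_ne_zero _ (Nat.cast_ne_zero.2 hk'.1)
  rcases mul_eq_zero.1 h1.symm with h3 | h3
  · exact absurd h3 h2
  · exact h3

/-- a point of the closure comes from a number field containing a given one -/
lemma exists_field {L : Type} [Field L] [NumberField L] [Algebra K L]
    (φ : L →ₐ[K] AlgebraicClosure K) (s : Bp A (AlgebraicClosure K)) :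
    ∃ (E : IntermediateField K (AlgebraicClosure K)) (_ : NumberField E) (ψ : L →ₐ[K] E)
      (s' : Bp A E), E.val.comp ψ = φ ∧ bcB E.val s' = s := by
  set E1 : IntermediateField K (AlgebraicClosure K) :=
    IntermediateField.adjoin K (Set.range (fun p : Fin β × Fin n => (s p.1).1 p.2)) with hE1
  have h1 : FiniteDimensional K E1 :=
    IntermediateField.finiteDimensional_adjoin (fun x _ => Algebra.IsIntegral.isIntegral x)
  have h0 : FiniteDimensional K L := Module.Finite.of_restrictScalars_finite ℚ K L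
  have h2 : FiniteDimensional K φ.fieldRange := LinearMap.finiteDimensional_range φ.toLinearMap
  set E := E1 ⊔ φ.fieldRange with hE
  have h3 : FiniteDimensional K E := IntermediateField.finiteDimensional_sup E1 φ.fieldRange
  have h4 : NumberField E := NumberField.of_module_finite K E
  have hφE : ∀ x : L, φ x ∈ E := fun x => (le_sup_right : φ.fieldRange ≤ E) ⟨x, rfl⟩
  have hsE : ∀ b c, (s b).1 c ∈ E := fun b c => (le_sup_left : E1 ≤ E)
    (IntermediateField.subset_adjoin K _ ⟨(b, c), rfl⟩)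
  refine ⟨E, h4, φ.codRestrict E.toSubalgebra hφE, fun b => ⟨fun c => ⟨(s b).1 c, hsE b c⟩, ?_, ?_⟩,
    ?_, ?_⟩
  · obtain ⟨i, hi, hi'⟩ := (s b).2.1
    exact ⟨i, Subtype.ext hi, fun j hj => Subtype.ext (hi' j hj)⟩
  · intro j
    have h5 := MvPolynomial.comp_aeval_apply (f := fun c : Fin n => (⟨(s b).1 c, hsE b c⟩ : E))
      E.val ((A b).eqn j)
    have h6 : E.val (aeval (fun c : Fin n => (⟨(s b).1 c, hsE b c⟩ : E)) ((A b).eqn j)) =
        E.val 0 := by
      rw [h5, map_zero]
      exact (s b).2.2 j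
    exact E.val.injective h6
  · ext x
    rfl
  · funext b
    exact Subtype.ext rfl

/-- a difference which is not torsion -/
lemma nontors {C2 : ℝ} (hcan : ∀ (L : Type) [Field L] [NumberField L]
    [Algebra K L], ∃ q : Bp A L → ℝ, (∀ P, 0 ≤ q P) ∧
      (∀ P Q, q (P + Q) + q (P - Q) = 2 * (q P + q Q)) ∧
      (∀ P, |q P - htL P| ≤ C2 * Module.finrank ℚ L)) {L : Type} [Field L] [NumberField L]
    [Algebra K L] (φ : L →ₐ[K] AlgebraicClosure K) (P : Bp A L) (s : Bp A (AlgebraicClosure K))
    (h : 2 * hG (Ha K) s + 3 * C2 < htL P / Module.finrank ℚ L) (m : ℤ) (hm : m ≠ 0) :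
    m • (bcB φ P - s) ≠ 0 := by
  intro hcon
  obtain ⟨E, hE, ψ, s', hψ, hs'⟩ := exists_field φ s
  obtain ⟨q, hq0, hq1, hq2⟩ := hcan E
  let iAE : Algebra L E := ψ.toRingHom.toAlgebra
  have iT : IsScalarTower K L E :=
    IsScalarTower.of_algebraMap_eq (fun x => (ψ.commutes x).symm)
  have hP : bcB φ P = bcB E.val (bcB ψ P) := by rw [bcB_comp, hψ]
  have h1 : m • (bcB ψ P - s') = 0 := by
    apply bcB_inj E.val
    let g : Bp A E →+ Bp A (AlgebraicClosure K) := AddMonoidHom.mk' (bcB E.val) (bcB_add E.val)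
    have h2 : bcB E.val (m • (bcB ψ P - s')) = m • bcB E.val (bcB ψ P - s') :=
      map_zsmul g m (bcB ψ P - s')
    have h3 : bcB E.val (0 : Bp A E) = 0 := map_zero g
    rw [h2, h3, bcB_sub, ← hP, hs', hcon]
  have h2 := q_tors q hq1 _ m hm h1
  have h3 := hq1 (bcB ψ P - s') s'
  rw [h2, sub_add_cancel] at h3
  have h4 := hq0 (bcB ψ P - s' - s')
  have h5 := (abs_le.1 (hq2 (bcB ψ P))).1
  have h6 := (abs_le.1 (hq2 s')).2
  have hd : (0 : ℝ) < Module.finrank ℚ L := Nat.cast_pos.2 Module.finrank_pos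
  have hdE : (0 : ℝ) < Module.finrank ℚ E := Nat.cast_pos.2 Module.finrank_pos
  have h7 : htL (bcB ψ P) / Module.finrank ℚ E = htL P / Module.finrank ℚ L := by
    have e1 : bcB ψ P = bcB (IsScalarTower.toAlgHom K L E) P := rfl
    have e3 : (0 : ℝ) < Module.finrank L E := by
      have := finrank_scale (L := L) (L' := E)
      rw [this] at hdE
      exact (pos_iff_pos_of_mul_pos hdE).2 hd
    rw [e1, htL_scale, finrank_scale (L := L) (L' := E)]
    field_simp
  have h8 := ht_le_hG E.val s'
  rw [hs', div_le_iff₀ hdE] at h8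
  rw [← h7, lt_div_iff₀ hdE] at h
  nlinarith

end

end Pool.Agent.H14.PL
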