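import Pool.Agent.H14.PL.Hg
import Pool.Agent.H14.PL.Cov

/-!
# The points of a finitely generated group on a hypersurface
-/

set_option autoImplicit false
set_option linter.unusedSectionVars false

open MvPolynomial Pool.Agent.TH954.X Pool.Agent.TH954.V Pool.Agent.TH954.Z Pool.Agent.H14.LB
open NumberField Height

namespace Pool.Agent.H14.PL

section

variable {K : Type} [Field K] [NumberField K] {n β : ℕ} {A : Fin β → AbV K n}

/-- the hypersurface `F = 0` contains a positive-dimensional coset through `x` -/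
def Ueno (F : MvPolynomial (Fin β × Fin n) (AlgebraicClosure K))
    (x : Bp A (AlgebraicClosure K)) : Prop :=
  ∃ u : Bp A (AlgebraicClosure K), (∀ m : ℤ, m ≠ 0 → m • u ≠ 0) ∧
    ∀ m : ℤ, ev F (vc (x + m • u)) = 0

/-- **Points on a hypersurface.** -/
theorem ml (A : Fin β → AbV K n) (D : ℕ) : ∃ c0 c : ℝ, 0 < c0 ∧ 1 ≤ c ∧ ∃ κ : ℕ,
    ∀ (L : Type) [Field L] [NumberField L] [Algebra K L] (φ : L →ₐ[K] AlgebraicClosure K)
      (Γ : AddSubgroup (Bp A L)), Γ.FG → ∀ T : ℝ, 1 ≤ T →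
      ∀ (F : MvPolynomial (Fin β × Fin n) (AlgebraicClosure K)) (σ : Fin β → ℕ), MH σ F →
        (∀ b, σ b ≤ D) → ∃ Z : Finset (Bp A L), (∀ z ∈ Z, z ∈ Γ) ∧
          (Z.card : ℝ) ≤ (c ^ (1 + Module.finrank ℤ Γ) * (1 + Real.log T)) ^ κ ∧
          ∀ P ∈ Γ, htL P ≤ T * Module.finrank ℚ L → ev F (vc (bcB φ P)) = 0 →
            ¬ Ueno F (bcB φ P) → ∃ z ∈ Z, htL (P - z) ≤ c0 * Module.finrank ℚ L := by
  classical
  obtain ⟨C2, hC2, hcan⟩ := canB A
  obtain ⟨C, hC, hfar⟩ := far (Ω := AlgebraicClosure K) A (Ha_ht K) (D * 2)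
  set δ : ℝ := 1 / (2 * √(C * n + 1)) with hδ
  have hCn : 0 ≤ C * n := by positivity
  have hs1 : 1 ≤ √(C * n + 1) := by
    exact Real.one_le_sqrt.2 (by linarith)
  have hδ0 : 0 < δ := by positivity
  have hδ1 : δ ≤ 1 := by
    rw [hδ, div_le_one (by positivity)]
    linarith
  have hδ2 : 2 * (C * n) * δ ^ 2 ≤ 1 / 2 := by
    rw [hδ, div_pow, mul_pow, Real.sq_sqrt (by linarith)]
    rw [mul_div_assoc', div_le_iff₀ (by positivity)]
    linarith
  set c6 : ℝ := 1 / δ with hc6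
  have hc61 : 1 ≤ c6 := by
    rw [hc6, le_div_iff₀ hδ0]
    linarith
  have hc6δ : δ * c6 = 1 := by
    rw [hc6]
    field_simp
  set c1 : ℝ := 2 + C2 + 2 * (2 * C * (1 + n * C2) + 4 * C2) with hc1
  have hc1p : 0 ≤ 2 * C * (1 + n * C2) + 4 * C2 := by positivity
  have hc10 : 0 < c1 := by linarith
  refine ⟨c1 + C2, 4 / δ + 5, by linarith, by
    have : 0 < 4 / δ := by positivity
    linarith, Fintype.card (Mon β n (D * 2)),
    fun L _ _ _ φ Γ hΓ T hT F σ hσ hσD => ?_⟩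
  set d : ℝ := (Module.finrank ℚ L : ℝ) with hd
  have hd0 : 0 < d := Nat.cast_pos.2 Module.finrank_pos
  obtain ⟨q, hq0, hq1, hq2⟩ := hcan L
  have hGfg : AddGroup.FG Γ := (AddGroup.fg_iff_addSubgroup_fg Γ).2 hΓ
  obtain ⟨v, hv⟩ := euc hGfg (fun P : Γ => q P) (fun P => hq0 _) (fun P Q => hq1 _ _)
  set S : Set Γ := {P | htL (P : Bp A L) ≤ T * d ∧ ev F (vc (bcB φ (P : Bp A L))) = 0 ∧
    ¬ Ueno F (bcB φ (P : Bp A L))} with hS
  let ι : Γ → Bp A (AlgebraicClosure K) := fun P => bcB φ (P : Bp A L)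
  set r0 : ℝ := √(c1 * d) with hr0
  have hr0p : 0 < r0 := Real.sqrt_pos.2 (by positivity)
  have hr0sq : r0 ^ 2 = c1 * d := Real.sq_sqrt (by positivity)
  set B : ℝ := √T * r0 with hB
  have hT0 : 0 < T := by linarith
  have hSB : ∀ P ∈ S, ‖v P‖ ≤ B := by
    intro P hP
    have h1 : ‖v P‖ ^ 2 ≤ B ^ 2 := by
      rw [hv, hB, mul_pow, Real.sq_sqrt hT0.le, hr0sq]
      have h2 := (abs_le.1 (hq2 P)).2
      have h3 := hP.1
      have h4 : C2 * d ≤ C2 * d * T := le_mul_of_one_le_right (by positivity) hT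
      have h5 : (1 + C2) * (d * T) ≤ c1 * (d * T) :=
        mul_le_mul_of_nonneg_right (by linarith) (by positivity)
      nlinarith
    exact le_of_sq_le_sq h1 (by positivity)
  set J : ℕ := ⌊Real.logb 2 T⌋₊ + 1 + 1 with hJ
  have hJ1 : 2 * B < 2 ^ J * (c6 * r0) := by
    have h1 : T < 2 ^ (⌊Real.logb 2 T⌋₊ + 1) := by
      have h2 := Nat.lt_floor_add_one (Real.logb 2 T)
      have h3 : Real.logb 2 T < ((⌊Real.logb 2 T⌋₊ + 1 : ℕ) : ℝ) := by
        push_cast
        exact h2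
      rw [Real.logb_lt_iff_lt_rpow (by norm_num) hT0, Real.rpow_natCast] at h3
      exact h3
    have h2 : √T ≤ T := by
      rw [Real.sqrt_le_left hT0.le]
      nlinarith
    have h3 : 2 * √T < 2 ^ J := by
      rw [hJ, pow_succ]
      linarith
    have h4 : r0 ≤ c6 * r0 := le_mul_of_one_le_left hr0p.le hc61
    calc 2 * B = 2 * √T * r0 := by rw [hB]; ring
      _ < 2 ^ J * r0 := mul_lt_mul_of_pos_right h3 hr0p
      _ ≤ 2 ^ J * (c6 * r0) := mul_le_mul_of_nonneg_left h4 (by positivity)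
  have key := recur v (fun S' : Set Γ => rk (D * 2) (ι '' S')) (fun S1 S2 h => rk_mono (Set.image_mono h))
    S r0 B c6 δ hr0p hc61 hδ0 hSB J hJ1 (fun S' hS' => rk_pos (hS'.image ι)) (by
      intro S' S1 S2 hS'S h1 h2 hr1 hr2 x y r1 hr01 hy hx1 hy2 hxy
      set Y : ℝ := ‖v (y - x)‖ ^ 2 / d with hY
      have hY0 : 0 ≤ Y := by positivity
      have hnn : 0 ≤ (n : ℝ) * (C2 + δ ^ 2 * Y) := by positivity
      have hbd : ∀ P : Γ, ‖v P‖ ≤ δ * ‖v (y - x)‖ →
          hG (Ha K) (bcB φ (P : Bp A L)) ≤ 1 + n * (C2 + δ ^ 2 * Y) := by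
        intro P hP
        have h3 := hG_le φ (P : Bp A L)
        have h4 : htL (P : Bp A L) / d ≤ C2 + δ ^ 2 * Y := by
          rw [div_le_iff₀ hd0]
          have h5 := (abs_le.1 (hq2 P)).1
          have h6 : q P ≤ δ ^ 2 * ‖v (y - x)‖ ^ 2 := by
            rw [← hv P, ← mul_pow]
            exact pow_le_pow_left₀ (norm_nonneg _) hP 2
          have h7 : δ ^ 2 * Y * d = δ ^ 2 * ‖v (y - x)‖ ^ 2 := by
            rw [hY]
            field_simp
          rw [add_mul, h7]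
          linarith
        have h5 := mul_le_mul_of_nonneg_left h4 (Nat.cast_nonneg (α := ℝ) n)
        linarith
      obtain ⟨s, hs, hms⟩ := hfar F σ hσ (fun b => Nat.mul_le_mul_right 2 (hσD b)) (ι '' S')
        (ι '' S1) (ι '' S2) (Set.image_mono h1) (Set.image_mono h2) (by
          rintro _ ⟨P, hP, rfl⟩
          exact (hS'S hP).2.1) hr1 hr2 (ι x) (ι y) (1 + n * (C2 + δ ^ 2 * Y)) ⟨y, hy, rfl⟩
        (by linarith) (by
          rintro _ ⟨P, hP, rfl⟩
          have e : ι P - ι x = bcB φ ((P - x : Γ) : Bp A L) := by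
            change bcB φ (P : Bp A L) - bcB φ (x : Bp A L) = _
            rw [← bcB_sub]
            rfl
          rw [e]
          refine hbd (P - x) ((hx1 P hP).trans ?_)
          have e2 := mul_le_mul_of_nonneg_left hxy hδ0.le
          rw [← mul_assoc, hc6δ, one_mul] at e2
          exact e2) (by
          rintro _ ⟨P, hP, rfl⟩
          have e : ι P - ι y = bcB φ ((P - y : Γ) : Bp A L) := by
            change bcB φ (P : Bp A L) - bcB φ (y : Bp A L) = _
            rw [← bcB_sub]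
            rfl
          rw [e]
          exact hbd (P - y) (hy2 P hP))
      refine (hS'S (h2 hy)).2.2 ⟨ι y - ι x - s, fun m hm => ?_, hms⟩
      have e : ι y - ι x = bcB φ ((y - x : Γ) : Bp A L) := by
        change bcB φ (y : Bp A L) - bcB φ (x : Bp A L) = _
        rw [← bcB_sub]
        rfl
      rw [e]
      refine nontors hcan φ _ s ?_ m hm
      have h5 := (abs_le.1 (hq2 ((y - x : Γ) : Bp A L))).2
      have h6 : Y - C2 ≤ htL ((y - x : Γ) : Bp A L) / d := by
        rw [le_div_iff₀ hd0, sub_mul]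
        have h7 : Y * d = q ((y - x : Γ) : Bp A L) := by
          rw [hY, div_mul_cancel₀ _ hd0.ne', hv]
        rw [h7]
        linarith
      have h7 : c1 ≤ Y := by
        rw [hY, le_div_iff₀ hd0, ← hr0sq]
        have h8 : r0 ≤ ‖v (y - x)‖ := by
          refine le_trans ?_ hxy
          have := le_mul_of_one_le_left (hr0p.le.trans hr01) hc61
          linarith
        exact pow_le_pow_left₀ hr0p.le h8 2
      have h8 : 2 * (C * (1 + n * (C2 + δ ^ 2 * Y))) =
          2 * C * (1 + n * C2) + 2 * (C * n) * δ ^ 2 * Y := by ring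
      have h9 : 2 * (C * n) * δ ^ 2 * Y ≤ 1 / 2 * Y := mul_le_mul_of_nonneg_right hδ2 hY0
      linarith) (Fintype.card (Mon β n (D * 2))) S (Set.Subset.refl _) (rk_le _ _)
  obtain ⟨Z, hZS, hZc, hZ⟩ := key
  rw [finrank_euclideanSpace_fin] at hZc
  refine ⟨Z.image Subtype.val, ?_, ?_, ?_⟩
  · intro z hz
    obtain ⟨z', -, rfl⟩ := Finset.mem_image.1 hz
    exact z'.2
  · have h1 : ((Z.image Subtype.val).card : ℝ) ≤ Z.card := by exact_mod_cast Finset.card_image_le
    refine h1.trans (hZc.trans (pow_le_pow_left₀ (by positivity) ?_ _))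
    have e1 : 4 * c6 + 1 = 4 / δ + 1 := by rw [hc6]; ring
    rw [e1]
    have h2 : (J : ℝ) ≤ 3 * (1 + Real.log T) := by
      rw [hJ]
      push_cast
      have h3 := shells hT
      have h4 := Real.log_nonneg hT
      linarith
    have h4 := Real.log_nonneg hT
    have h5 : 0 < 4 / δ := by positivity
    set r := Module.finrank ℤ Γ with hr
    have h6 : (4 / δ + 1) ^ r ≤ (4 / δ + 5) ^ r := pow_le_pow_left₀ (by linarith) (by linarith) r
    have h7 : 0 ≤ (4 / δ + 1) ^ r := by positivity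
    calc (4 / δ + 1) ^ r + J * (4 / δ + 1) ^ r = (1 + J) * (4 / δ + 1) ^ r := by ring
      _ ≤ (4 * (1 + Real.log T)) * (4 / δ + 1) ^ r :=
          mul_le_mul_of_nonneg_right (by linarith) h7
      _ ≤ (4 * (1 + Real.log T)) * (4 / δ + 5) ^ r :=
          mul_le_mul_of_nonneg_left h6 (by linarith)
      _ = 4 * ((4 / δ + 5) ^ r * (1 + Real.log T)) := by ring
      _ ≤ (4 / δ + 5) * ((4 / δ + 5) ^ r * (1 + Real.log T)) :=
          mul_le_mul_of_nonneg_right (by linarith) (by positivity)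
      _ = (4 / δ + 5) ^ (1 + r) * (1 + Real.log T) := by rw [pow_add, pow_one]; ring
  · intro P hP hPT hPF hPU
    obtain ⟨z, hz, hz'⟩ := hZ ⟨P, hP⟩ ⟨hPT, hPF, hPU⟩
    refine ⟨z, Finset.mem_image_of_mem _ hz, ?_⟩
    have h1 := (abs_le.1 (hq2 (P - z))).1
    have h2 : q (P - z) ≤ c1 * d := by
      have h3 := hv (⟨P, hP⟩ - z)
      have h4 : ‖v (⟨P, hP⟩ - z)‖ ^ 2 ≤ r0 ^ 2 := pow_le_pow_left₀ (norm_nonneg _) hz'.le 2
      rw [h3, hr0sq] at h4
      exact h4
    rw [add_mul]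
    linarith

end

end Pool.Agent.H14.PL
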