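import Pool.Agent.H14.PL.Ml

/-!
# Exceptional points of a finitely generated group outside cosets
-/

set_option autoImplicit false
set_option linter.unusedSectionVars false

open MvPolynomial Pool.Agent.TH954.X Pool.Agent.TH954.V Pool.Agent.TH954.Z Pool.Agent.H14.LB
open NumberField

namespace Pool.Agent.H14.PL

variable {K : Type} [Field K] [NumberField K] {n β : ℕ}

/-- the points of a shell lie on few hypersurfaces of bounded degree -/
lemma shellZ {A : Fin β → AbV K n} {E1 E2 : Type}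
    (g : E1 → MvPolynomial (Option (Fin β) × Fin n) K)
    (f : E2 → MvPolynomial (Option (Fin β) × Fin n) K) (δ : E2 → Option (Fin β) → ℕ)
    {ε C δ0 : ℝ} {D : ℕ} (hδ0 : 0 < δ0) (hδ1 : δ0 ≤ 1 / 4)
    (hloc : ∀ (Ω : Type) [Field Ω] [Algebra K Ω] (P0 : Bp A Ω),
        ∃ (H : MvPolynomial (Fin β × Fin n) Ω) (σ : Fin β → ℕ), MH σ H ∧ (∀ b, σ b ≤ D) ∧
          NZ1 A Ω H ∧ ∀ y ∈ SetC g f δ ε C δ0 Ω P0, ev H (vc y) = 0)
    (L : Type) [Field L] [NumberField L] [Algebra K L] (Γ : AddSubgroup (Bp A L))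
    (hΓ : Γ.FG) (q : Bp A L → ℝ) (hq0 : ∀ P, 0 ≤ q P)
    (hq1 : ∀ P Q, q (P + Q) + q (P - Q) = 2 * (q P + q Q)) (c : ℝ)
    (hq2 : ∀ P, |q P - htL P| ≤ c) (U : ℝ) (hU : 0 < U) (hcU : c ≤ δ0 * U / 2) :
    ∃ (Z : Finset Γ) (H : Γ → MvPolynomial (Fin β × Fin n) L) (σ : Γ → Fin β → ℕ),
      (Z.card : ℝ) ≤ (2 * √(6 / δ0) + 1) ^ (Module.finrank ℤ Γ) ∧ (∀ z, MH (σ z) (H z)) ∧
      (∀ z b, σ z b ≤ D) ∧ (∀ z, NZ1 A L (H z)) ∧
      ∀ P ∈ Γ, U ≤ htL P → htL P ≤ 2 * U → ExcR g f δ ε C L P → ∃ z ∈ Z, ev (H z) (vc P) = 0 := by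
  classical
  have hG : AddGroup.FG Γ := (AddGroup.fg_iff_addSubgroup_fg Γ).2 hΓ
  obtain ⟨v, hv⟩ := euc hG (fun P : Γ => q P) (fun P => hq0 _) (fun P Q => hq1 _ _)
  have hv' : ∀ P : Γ, ‖v P‖ = √(q P) := fun P => by
    rw [← hv P, Real.sqrt_sq (norm_nonneg _)]
  set t : ℝ := √(δ0 * U / 2) with ht
  have ht0 : 0 < t := Real.sqrt_pos.2 (by positivity)
  set S : Set Γ := {P | U ≤ htL (P : Bp A L) ∧ htL (P : Bp A L) ≤ 2 * U} with hS
  obtain ⟨Z, hZS, hZc, hZ⟩ := cover v S (√(6 / δ0)) t (Real.sqrt_nonneg _) ht0 (by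
    intro P hP
    rw [hv', ht, ← Real.sqrt_mul (by positivity)]
    refine Real.sqrt_le_sqrt ?_
    have h1 := (abs_le.1 (hq2 P)).2
    have h2 : 6 / δ0 * (δ0 * U / 2) = 3 * U := by
      field_simp
      ring
    rw [h2]
    have h3 := hP.2
    nlinarith)
  rw [finrank_euclideanSpace_fin] at hZc
  choose H0 σ hσ0 hσD hN0 hH0 using fun z : Γ => hloc (AlgebraicClosure L)
    (bcB (IsScalarTower.toAlgHom K L (AlgebraicClosure L)) (z : Bp A L))
  choose H hσ hN hH using fun z : Γ => descend (L := L) (H0 z) (σ z) (hσ0 z) (hN0 z)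
  refine ⟨Z, H, σ, hZc, hσ, hσD, hN, fun P hP h1 h2 h3 => ?_⟩
  obtain ⟨z, hz, hz1⟩ := hZ ⟨P, hP⟩ ⟨h1, h2⟩
  have hzS := hZS hz
  refine ⟨z, hz, hH z P (hH0 z _ ?_)⟩
  obtain ⟨L', iF, iN, iA, iLA, iT, hE⟩ := h3
  have hfin : Algebra.IsAlgebraic L L' := by
    have : Module.Finite L L' := Module.Finite.of_restrictScalars_finite ℚ L L'
    exact Algebra.IsAlgebraic.of_finite L L'
  let φ0 : L' →ₐ[L] AlgebraicClosure L := IsAlgClosed.lift
  let φ : L' →ₐ[K] AlgebraicClosure L := φ0.restrictScalars K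
  have hφ : ∀ Q : Bp A L, bcB φ (bcB (IsScalarTower.toAlgHom K L L') Q) =
      bcB (IsScalarTower.toAlgHom K L (AlgebraicClosure L)) Q := by
    intro Q
    rw [bcB_comp]
    congr 1
    ext x
    exact φ0.commutes x
  refine ⟨L', iF, iN, iA, φ, bcB (IsScalarTower.toAlgHom K L L') (z : Bp A L),
    bcB (IsScalarTower.toAlgHom K L L') P, hφ _, hφ _, ?_, hE⟩
  rw [← bcB_sub, htL_scale, htL_scale]
  rw [hv'] at hz1
  have h5 : q (P - z) < δ0 * U / 2 := by
    have h6 := Real.lt_sqrt (Real.sqrt_nonneg _) |>.1 (ht ▸ hz1)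
    rw [Real.sq_sqrt (hq0 _)] at h6
    exact h6
  have h6 := (abs_le.1 (hq2 (P - z))).1
  have h7 : δ0 * U ≤ δ0 * htL (z : Bp A L) := mul_le_mul_of_nonneg_left hzS.1 hδ0.le
  have h8 : htL (P - (z : Bp A L)) ≤ δ0 * htL (z : Bp A L) := by linarith
  have h9 := mul_le_mul_of_nonneg_left h8 (Nat.cast_nonneg (α := ℝ) (Module.finrank L L'))
  linarith

/-- a form over `L` as a form over the algebraic closure of `K` -/
noncomputable def mpc {L : Type} [Field L] [Algebra K L] (φ : L →ₐ[K] AlgebraicClosure K)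
    (H : MvPolynomial (Fin β × Fin n) L) : MvPolynomial (Fin β × Fin n) (AlgebraicClosure K) :=
  map φ.toRingHom H

lemma MH_mpc {L : Type} [Field L] [Algebra K L] (φ : L →ₐ[K] AlgebraicClosure K)
    {H : MvPolynomial (Fin β × Fin n) L} {σ : Fin β → ℕ} (hH : MH σ H) : MH σ (mpc φ H) :=
  fun m hm => hH m (support_map_subset _ _ hm)

lemma ev_mpc {A : Fin β → AbV K n} {L : Type} [Field L] [Algebra K L]
    (φ : L →ₐ[K] AlgebraicClosure K) (H : MvPolynomial (Fin β × Fin n) L) (P : Bp A L) :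
    ev (mpc φ H) (vc (bcB φ P)) = φ (ev H (vc P)) := by
  unfold ev mpc
  rw [aeval_def, aeval_def, eval₂_map, ← AlgHom.coe_toRingHom φ, hom_eval₂]
  rfl

/-- **The exceptional points outside cosets.** -/
theorem polyX (A : Fin β → AbV K n) (hA : Top A) (E1 E2 : Type) [Fintype E1] [Fintype E2]
    (g : E1 → MvPolynomial (Option (Fin β) × Fin n) K) (hg : ∀ i, ∃ γ, MH γ (g i))
    (f : E2 → MvPolynomial (Option (Fin β) × Fin n) K) (δ : E2 → Option (Fin β) → ℕ)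
    (hf : ∀ i, MH (δ i) (f i))
    (hcod : ∀ (F : Type) [Field F] [Algebra K F] (t : Fin n → F) (P : Bp A F), t ≠ 0 →
      (∀ i, ev (g i) (fl t P) = 0) → (∀ i, ev (f i) (fl t P) = 0) →
      td (K := K) (vc P) + ((2 : ℕ) : Cardinal) ≤ ((∑ b, (A b).dim : ℕ) : Cardinal))
    (ε : ℝ) (hε : 0 < ε) :
    ∃ (C c : ℝ) (κ : ℕ), 1 ≤ c ∧
      (∀ (L : Type) [Field L] [NumberField L] [Algebra K L] (φ : L →ₐ[K] AlgebraicClosure K)
        (Γ : AddSubgroup (Bp A L)), Γ.FG →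
        ∀ T : ℝ, 1 ≤ T → ∃ (H : MvPolynomial (Fin β × Fin n) L) (σ : Fin β → ℕ), MH σ H ∧
          (∀ b, (σ b : ℝ) ≤ c ^ (1 + Module.finrank ℤ Γ) * (1 + Real.log T)) ∧ NZ1 A L H ∧
          (∀ P ∈ Γ, htL P ≤ T * Module.finrank ℚ L → ExcR g f δ ε C L P → ev H (vc P) = 0) ∧
          ∃ Z : Finset (Bp A L), (∀ z ∈ Z, z ∈ Γ) ∧
            (Z.card : ℝ) ≤ (c ^ (1 + Module.finrank ℤ Γ) * (1 + Real.log T)) ^ κ ∧
            ∀ P ∈ Γ, htL P ≤ T * Module.finrank ℚ L → ExcR g f δ ε C L P →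
              ¬ Ueno (mpc φ H) (bcB φ P) → ∃ z ∈ Z, htL (P - z) ≤ C * Module.finrank ℚ L) := by
  classical
  obtain ⟨D, δ0, C1, hδ0, hδ1, hC1, hloc⟩ := loc A hA E1 E2 g hg f δ hf hcod ε hε
  obtain ⟨s, h, η, hη, hcd, N, C', hN, hC', hred⟩ := redExc A E1 E2 g hg f δ hf 2 hcod
  obtain ⟨l0, hl0⟩ := exists_NZ A h hcd
  obtain ⟨A1, A2, hA1, hA2, hfam⟩ := tot_fam_le A h η hη
  obtain ⟨C2, hC2, hcan⟩ := canB A
  obtain ⟨c3, c4, hc3, hc4, κ, hml⟩ := ml A D
  have hNR : (0 : ℝ) < N := by exact_mod_cast hN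
  -- the constants
  set c0 : ℝ := 1 + 2 * C2 / δ0 with hc0
  have hc01 : 1 ≤ c0 := by
    have : 0 ≤ 2 * C2 / δ0 := by positivity
    linarith
  have hc02 : C2 ≤ δ0 * c0 / 2 := by
    have h1 : δ0 * c0 = δ0 + 2 * C2 := by
      rw [hc0]
      field_simp
    rw [h1]
    linarith
  set C5 : ℝ := max C1 (C' + N * (A1 * c0 + A2)) with hC5
  set C : ℝ := max C5 (max c0 c3) with hC
  have hCC5 : C5 ≤ C := le_max_left _ _
  have hCc0 : c0 ≤ C := (le_max_left _ _).trans (le_max_right _ _)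
  have hCc3 : c3 ≤ C := (le_max_right _ _).trans (le_max_right _ _)
  set R : ℝ := 2 * √(6 / δ0) + 1 with hR
  have hR1 : 1 ≤ R := by
    have := Real.sqrt_nonneg (6 / δ0)
    linarith
  set c : ℝ := 2 * R + 2 * D + ∑ b, (η l0 b : ℝ) + c4 with hc
  have hη0 : 0 ≤ ∑ b, (η l0 b : ℝ) := by positivity
  have hD0 : (0 : ℝ) ≤ 2 * D := by positivity
  have hcR : 2 * R ≤ c := by linarith
  have hcc4 : c4 ≤ c := by linarith
  have hc2 : 2 ≤ c := by linarith
  refine ⟨C, c, κ + 2, by linarith, fun L _ _ _ φ Γ hΓ T hT => ?_⟩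
  set dL : ℝ := (Module.finrank ℚ L : ℝ) with hdL
  have hdL0 : 0 < dL := by
    have : 0 < Module.finrank ℚ L := Module.finrank_pos
    exact Nat.cast_pos.2 this
  have hlogT : 0 ≤ Real.log T := Real.log_nonneg hT
  obtain ⟨q, hq0, hq1, hq2⟩ := hcan L
  set J : ℕ := ⌊Real.logb 2 T⌋₊ + 1 with hJ
  have hJle : (J : ℝ) ≤ 2 * (1 + Real.log T) := by
    rw [hJ]
    push_cast
    exact shells hT
  have hshell : ∀ j : ℕ, ∃ (Z : Finset Γ) (H : Γ → MvPolynomial (Fin β × Fin n) L)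
      (σ : Γ → Fin β → ℕ), (Z.card : ℝ) ≤ R ^ (Module.finrank ℤ Γ) ∧ (∀ z, MH (σ z) (H z)) ∧
      (∀ z b, σ z b ≤ D) ∧ (∀ z, NZ1 A L (H z)) ∧
      ∀ P ∈ Γ, 2 ^ j * (c0 * dL) ≤ htL P → htL P ≤ 2 * (2 ^ j * (c0 * dL)) →
        ExcR g f δ ε C1 L P → ∃ z ∈ Z, ev (H z) (vc P) = 0 := by
    intro j
    refine shellZ g f δ hδ0 hδ1 hloc L Γ hΓ q hq0 hq1 (C2 * dL) hq2 (2 ^ j * (c0 * dL))
      (by positivity) ?_
    have h1 : (1 : ℝ) ≤ 2 ^ j := one_le_pow₀ (by norm_num)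
    have h2 : C2 * dL ≤ δ0 * c0 / 2 * dL := mul_le_mul_of_nonneg_right hc02 hdL0.le
    have h3 : 0 ≤ δ0 * c0 / 2 * dL := by positivity
    calc C2 * dL ≤ δ0 * c0 / 2 * dL := h2
      _ ≤ 2 ^ j * (δ0 * c0 / 2 * dL) := le_mul_of_one_le_left h3 h1
      _ = δ0 * (2 ^ j * (c0 * dL)) / 2 := by ring
  choose Zs Hs σs hZs hσs hσsD hNs hHs using hshell
  -- the index set of the hypersurfaces
  set I : Finset ((_ : ℕ) × Γ) := (Finset.range J).sigma Zs with hI
  have hIcard : (I.card : ℝ) ≤ J * R ^ (Module.finrank ℤ Γ) := by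
    rw [hI, Finset.card_sigma]
    push_cast
    calc ∑ j ∈ Finset.range J, ((Zs j).card : ℝ)
        ≤ ∑ _j ∈ Finset.range J, R ^ (Module.finrank ℤ Γ) :=
          Finset.sum_le_sum (fun j _ => hZs j)
      _ = _ := by rw [Finset.sum_const, Finset.card_range, nsmul_eq_mul]
  set Hf : ((_ : ℕ) × Γ) → MvPolynomial (Fin β × Fin n) L := fun i => Hs i.1 i.2 with hHf
  set σf : ((_ : ℕ) × Γ) → Fin β → ℕ := fun i => σs i.1 i.2 with hσf
  have hprodMH := MH_prod I σf Hf (fun i _ => hσs i.1 i.2)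
  set r := Module.finrank ℤ Γ with hr
  have hRr1 : (1 : ℝ) ≤ R ^ r := one_le_pow₀ hR1
  have hRc : R ^ r ≤ c ^ r := pow_le_pow_left₀ (by linarith) (by linarith) _
  have hcr1 : (1 : ℝ) ≤ c ^ r := one_le_pow₀ (by linarith)
  choose Zm hZmΓ hZmc hZm using fun i : ((_ : ℕ) × Γ) =>
    hml L φ Γ hΓ T hT (mpc φ (Hf i)) (σf i) (MH_mpc φ (hσs i.1 i.2)) (hσsD i.1 i.2)
  have hexc : ∀ P ∈ Γ, htL P ≤ T * dL → ExcR g f δ ε C L P → c0 * dL ≤ htL P →
      ∃ i ∈ I, ev (Hf i) (vc P) = 0 := by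
    intro P hP hPT hPE hbig
    have h1 : 1 ≤ htL P / (c0 * dL) := by
      rw [le_div_iff₀ (by positivity)]
      linarith
    obtain ⟨j, hj1, hj2⟩ := exists_nat_pow_near h1 (by norm_num : (1 : ℝ) < 2)
    rw [le_div_iff₀ (by positivity)] at hj1
    rw [div_lt_iff₀ (by positivity)] at hj2
    have hjJ : j ∈ Finset.range J := by
      rw [Finset.mem_range, hJ, Nat.lt_succ_iff]
      refine Nat.le_floor ?_
      rw [Real.le_logb_iff_rpow_le (by norm_num) (by linarith), Real.rpow_natCast]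
      have h2 : (2 : ℝ) ^ j * (1 * dL) ≤ 2 ^ j * (c0 * dL) := by gcongr
      have h3 : (2 : ℝ) ^ j * dL ≤ T * dL := by linarith
      exact le_of_mul_le_mul_right h3 hdL0
    obtain ⟨z, hz, hz'⟩ := hHs j P hP hj1 (by
      rw [pow_succ] at hj2
      linarith) (ExcR_mono g f δ ((le_max_left C1 _).trans hCC5) hPE)
    exact ⟨⟨j, z⟩, Finset.mem_sigma.2 ⟨hjJ, hz⟩, hz'⟩
  have hmul : ∀ u : Fin β → Fin n → L, ev (mp L (h l0) * ∏ i ∈ I, Hf i) u =
      ev (mp L (h l0)) u * ∏ i ∈ I, ev (Hf i) u := by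
    intro u
    simp only [ev, map_mul, map_prod]
  refine ⟨mp L (h l0) * ∏ i ∈ I, Hf i, _, MH_mul (MH_mp (hη l0)) hprodMH, fun b => ?_,
    NZ1_mul A L (MH_mp (hη l0)) hprodMH (NZ1_of_NZ A L hl0)
      (NZ1_prod A L _ Hf σf (fun i _ => hσs i.1 i.2) (fun i _ => hNs i.1 i.2)),
    fun P hP hPT hPE => ?_, insert 0 (I.biUnion Zm), ?_, ?_, fun P hP hPT hPE hU => ?_⟩
  · push_cast
    have h1 : ∑ i ∈ I, (σf i b : ℝ) ≤ J * (R ^ r * D) := by
      calc ∑ i ∈ I, (σf i b : ℝ)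
          ≤ ∑ _i ∈ I, (D : ℝ) :=
            Finset.sum_le_sum (fun i _ => by exact_mod_cast hσsD i.1 i.2 b)
        _ = I.card * D := by rw [Finset.sum_const, nsmul_eq_mul]
        _ ≤ J * R ^ r * D := mul_le_mul_of_nonneg_right hIcard (Nat.cast_nonneg _)
        _ = J * (R ^ r * D) := by ring
    have h3 : (η l0 b : ℝ) ≤ ∑ b, (η l0 b : ℝ) :=
      Finset.single_le_sum (f := fun b => (η l0 b : ℝ)) (fun _ _ => Nat.cast_nonneg _)
        (Finset.mem_univ b)
    have h7 : (J : ℝ) * (R ^ r * D) ≤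
        2 * (1 + Real.log T) * (R ^ r * D) :=
      mul_le_mul_of_nonneg_right hJle (by positivity)
    have h8 : (η l0 b : ℝ) ≤
        (∑ b, (η l0 b : ℝ)) * (R ^ r * (1 + Real.log T)) := by
      refine h3.trans (le_mul_of_one_le_right hη0 ?_)
      have := mul_le_mul hRr1 (by linarith : (1 : ℝ) ≤ 1 + Real.log T) zero_le_one (by positivity)
      linarith
    calc (η l0 b : ℝ) + ∑ i ∈ I, (σf i b : ℝ)
        ≤ (∑ b, (η l0 b : ℝ)) * (R ^ r * (1 + Real.log T)) +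
          2 * (1 + Real.log T) * (R ^ r * D) := by linarith
      _ = (2 * D + ∑ b, (η l0 b : ℝ)) * (R ^ r * (1 + Real.log T)) := by ring
      _ ≤ c * (R ^ r * (1 + Real.log T)) :=
          mul_le_mul_of_nonneg_right (by linarith) (by positivity)
      _ ≤ c * (c ^ r * (1 + Real.log T)) := by
          refine mul_le_mul_of_nonneg_left (mul_le_mul_of_nonneg_right hRc (by linarith)) ?_
          linarith
      _ = c ^ (1 + r) * (1 + Real.log T) := by
          rw [pow_add, pow_one, mul_assoc]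
  · rw [hmul]
    by_cases hsm : htL P < c0 * dL
    · obtain ⟨L', iF, iN, iA, iLA, iT, hE⟩ := hPE
      have hev : ∀ i, ev (h i) (vc (bcB (IsScalarTower.toAlgHom K L L') P)) = 0 →
          ev (mp L (h i)) (vc P) = 0 := by
        intro i hi
        rw [ev_bcB] at hi
        rw [ev_mp]
        exact (map_eq_zero _).1 hi
      rcases hred ε C L' _ hE with h1 | h1
      · rw [hev l0 (h1 l0), zero_mul]
      · by_cases hall : ∀ i, ev (h i) (vc (bcB (IsScalarTower.toAlgHom K L L') P)) = 0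
        · rw [hev l0 (hall l0), zero_mul]
        · exfalso
          have h2 := hfam L' _ hall
          have h3 : A1 * c0 + A2 ≤ (C - C') / N := by
            rw [le_div_iff₀ hNR]
            have := (le_max_right C1 (C' + N * (A1 * c0 + A2))).trans hCC5
            linarith
          have hsm' : htL (bcB (IsScalarTower.toAlgHom K L L') P) ≤
              c0 * Module.finrank ℚ L' := by
            rw [htL_scale, finrank_scale (L := L) (L' := L')]
            have := mul_le_mul_of_nonneg_left hsm.le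
              (Nat.cast_nonneg (α := ℝ) (Module.finrank L L'))
            rw [hdL] at this
            linarith
          have h4 := mul_le_mul_of_nonneg_right h3
            (Nat.cast_nonneg (α := ℝ) (Module.finrank ℚ L'))
          have h5 : 0 ≤ ε / N * htL (bcB (IsScalarTower.toAlgHom K L L') P) :=
            mul_nonneg (by positivity) (htL_nonneg _)
          have h6 := mul_le_mul_of_nonneg_left hsm' hA1
          linarith
    · push Not at hsm
      obtain ⟨i, hi, hi'⟩ := hexc P hP hPT hPE hsm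
      rw [Finset.prod_eq_zero hi hi', mul_zero]
  · intro z hz
    rcases Finset.mem_insert.1 hz with rfl | hz
    · exact Γ.zero_mem
    · obtain ⟨i, -, hz⟩ := Finset.mem_biUnion.1 hz
      exact hZmΓ i z hz
  · set M : ℝ := c ^ (1 + r) * (1 + Real.log T) with hM
    have hM2 : 2 ≤ M := by
      have h1 : c ≤ c ^ (1 + r) := by
        rw [pow_add, pow_one]
        exact le_mul_of_one_le_right (by linarith) hcr1
      have h2 : c ^ (1 + r) * 1 ≤ M := mul_le_mul_of_nonneg_left (by linarith) (by positivity)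
      linarith
    have hIM : (I.card : ℝ) ≤ M := by
      refine hIcard.trans ?_
      have h1 : (J : ℝ) * R ^ r ≤ 2 * (1 + Real.log T) * R ^ r :=
        mul_le_mul_of_nonneg_right hJle (by positivity)
      have h2 : 2 * (1 + Real.log T) * R ^ r ≤ 2 * (1 + Real.log T) * c ^ r :=
        mul_le_mul_of_nonneg_left hRc (by linarith)
      have h3 : 2 * (1 + Real.log T) * c ^ r ≤ c * (1 + Real.log T) * c ^ r := by gcongr
      have h4 : c * (1 + Real.log T) * c ^ r = M := by rw [hM, pow_add, pow_one]; ring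
      linarith
    have hZmM : ∀ i, ((Zm i).card : ℝ) ≤ M ^ κ := by
      intro i
      refine (hZmc i).trans (pow_le_pow_left₀ (by positivity) ?_ κ)
      exact mul_le_mul_of_nonneg_right (pow_le_pow_left₀ (by linarith) hcc4 _) (by linarith)
    have h1 : ((I.biUnion Zm).card : ℝ) ≤ I.card * M ^ κ := by
      have h2 : ((I.biUnion Zm).card : ℝ) ≤ ∑ i ∈ I, ((Zm i).card : ℝ) := by
        exact_mod_cast Finset.card_biUnion_le
      refine h2.trans ((Finset.sum_le_sum (fun i _ => hZmM i)).trans ?_)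
      rw [Finset.sum_const, nsmul_eq_mul]
    have h2 : ((insert 0 (I.biUnion Zm)).card : ℝ) ≤ (I.biUnion Zm).card + 1 := by
      exact_mod_cast Finset.card_insert_le 0 (I.biUnion Zm)
    have h3 : (I.card : ℝ) * M ^ κ ≤ M * M ^ κ := mul_le_mul_of_nonneg_right hIM (by positivity)
    have h4 : (1 : ℝ) ≤ M ^ (κ + 1) := one_le_pow₀ (by linarith)
    have h5 : M ^ (κ + 2) = M ^ (κ + 1) * M := by ring
    have h6 : M ^ (κ + 1) * 2 ≤ M ^ (κ + 1) * M := mul_le_mul_of_nonneg_left hM2 (by positivity)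
    have h7 : M * M ^ κ = M ^ (κ + 1) := by ring
    rw [h5]
    linarith
  · by_cases hsm : htL P < c0 * dL
    · refine ⟨0, Finset.mem_insert_self _ _, ?_⟩
      rw [sub_zero]
      exact hsm.le.trans (mul_le_mul_of_nonneg_right hCc0 hdL0.le)
    · push Not at hsm
      obtain ⟨i, hi, hi'⟩ := hexc P hP hPT hPE hsm
      obtain ⟨z, hz, hz'⟩ := hZm i P hP hPT (by rw [ev_mpc, hi', map_zero]) (by
        rintro ⟨u, hu, hum⟩
        refine hU ⟨u, hu, fun m => ?_⟩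
        have h1 : ev (mpc φ (mp L (h l0) * ∏ i ∈ I, Hf i)) (vc (bcB φ P + m • u)) =
            ev (mpc φ (mp L (h l0))) (vc (bcB φ P + m • u)) *
              ∏ i ∈ I, ev (mpc φ (Hf i)) (vc (bcB φ P + m • u)) := by
          simp only [ev, mpc, map_mul, map_prod]
        rw [h1, Finset.prod_eq_zero hi (hum m), mul_zero])
      refine ⟨z, Finset.mem_insert_of_mem (Finset.mem_biUnion.2 ⟨i, hi, hz⟩), ?_⟩
      exact hz'.trans (mul_le_mul_of_nonneg_right hCc3 hdL0.le)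

end Pool.Agent.H14.PL
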