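import Pool.Agent.H14.PL.Ssl
import Pool.Agent.H14.LB.Rat

/-!
# Ranks of sets of points
-/

set_option autoImplicit false
set_option linter.unusedSectionVars false

open MvPolynomial Pool.Agent.TH954.X Pool.Agent.TH954.V Pool.Agent.TH954.Z Pool.Agent.H14.LB

namespace Pool.Agent.H14.PL

section mon

variable {β n D : ℕ}

/-- the exponents of the monomials of multidegree `(D, ..., D)` -/
abbrev Mon (β n D : ℕ) : Type := {m : (Fin β × Fin n) →₀ ℕ // ∀ j, ∑ c, m (j, c) = D}

instance : Finite (Mon β n D) := by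
  have h : ∀ (m : Mon β n D) (p : Fin β × Fin n), m.1 p < D + 1 := by
    intro m p
    have h1 := m.2 p.1
    have h2 : m.1 (p.1, p.2) ≤ ∑ c, m.1 (p.1, c) :=
      Finset.single_le_sum (f := fun c => m.1 (p.1, c)) (fun _ _ => Nat.zero_le _)
        (Finset.mem_univ p.2)
    have h3 : m.1 p = m.1 (p.1, p.2) := rfl
    omega
  refine Finite.of_injective (β := Fin β × Fin n → Fin (D + 1)) (fun m p => ⟨m.1 p, h m p⟩) ?_
  intro m m' hm
  apply Subtype.ext
  ext p
  have := congrFun hm p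
  exact congrArg Fin.val this

noncomputable instance : Fintype (Mon β n D) := Fintype.ofFinite _

/-- the vector of the monomials -/
def phi (D : ℕ) {F : Type} [Field F] (u : Fin β → Fin n → F) : Mon β n D → F :=
  fun m => ∏ p, u p.1 p.2 ^ m.1 p

/-- the form with given coefficients -/
noncomputable def frm {F : Type} [Field F] (w : Mon β n D → F) : MvPolynomial (Fin β × Fin n) F :=
  ∑ m, monomial m.1 (w m)

lemma ev_frm {F : Type} [Field F] (w : Mon β n D → F) (u : Fin β → Fin n → F) :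
    ev (frm w) u = ∑ m, w m * phi D u m := by
  unfold frm ev
  rw [map_sum]
  refine Finset.sum_congr rfl (fun m _ => ?_)
  rw [aeval_monomial, Finsupp.prod_fintype _ _ (fun p => pow_zero _)]
  rfl

lemma MH_frm {F : Type} [Field F] (w : Mon β n D → F) : MH (fun _ => D) (frm w) := by
  classical
  refine MH_sum _ _ _ (fun m _ => ?_)
  intro m' hm' j
  have h1 : m' = m.1 := by
    have := support_monomial_subset hm'
    rwa [Finset.mem_singleton] at this
  rw [h1]
  exact m.2 j

lemma ev_eq {F : Type} [Field F] {G : MvPolynomial (Fin β × Fin n) F} (hG : MH (fun _ => D) G)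
    (u : Fin β → Fin n → F) : ev G u = ∑ m : Mon β n D, coeff m.1 G * phi D u m := by
  classical
  rw [ev_expand]
  have h1 : ∑ m : Mon β n D, coeff m.1 G * phi D u m =
      ∑ m ∈ (Finset.univ : Finset (Mon β n D)).map ⟨Subtype.val, Subtype.val_injective⟩,
        coeff m G * ∏ p, u p.1 p.2 ^ m p := by
    rw [Finset.sum_map]
    rfl
  rw [h1]
  refine Finset.sum_subset ?_ ?_
  · intro m hm
    exact Finset.mem_map.2 ⟨⟨m, hG m hm⟩, Finset.mem_univ _, rfl⟩
  · intro m _ hm
    rw [notMem_support_iff.1 hm, map_zero, zero_mul]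

lemma phi_smul {F : Type} [Field F] (s : Fin β → F) (u : Fin β → Fin n → F) :
    phi D (fun b => s b • u b) = (∏ b, s b ^ D) • phi D u := by
  funext m
  have h1 : ∀ v : Fin β → Fin n → F, phi D v m = ev (frm (Pi.single m (1 : F))) v := by
    intro v
    rw [ev_frm, Finset.sum_eq_single m]
    · rw [Pi.single_eq_same, one_mul]
    · intro m' _ hm'
      rw [Pi.single_eq_of_ne hm', zero_mul]
    · simp
  rw [Pi.smul_apply, h1, h1, ev_smul (MH_frm _)]
  rfl

end mon

section rank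

variable {K : Type} [Field K] {n β : ℕ} {A : Fin β → AbV K n} {Ω : Type} [Field Ω] [Algebra K Ω]

/-- the span of the values of the monomials at the translates by `x` of the points of `S` -/
def Sp (D : ℕ) (x : Bp A Ω) (S : Set (Bp A Ω)) : Submodule Ω (Mon β n D → Ω) :=
  Submodule.span Ω ((fun a => phi D (vc (x + a))) '' S)

/-- its dimension -/
noncomputable def Rx (D : ℕ) (x : Bp A Ω) (S : Set (Bp A Ω)) : ℕ := Module.finrank Ω (Sp D x S)

/-- the rank of a set of points -/
noncomputable def rk (D : ℕ) (S : Set (Bp A Ω)) : ℕ := sSup (Set.range fun x => Rx D x S)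

lemma Rx_le (D : ℕ) (x : Bp A Ω) (S : Set (Bp A Ω)) : Rx D x S ≤ Fintype.card (Mon β n D) := by
  have := Submodule.finrank_le (Sp D x S)
  rw [Module.finrank_fintype_fun_eq_card] at this
  exact this

lemma bdd (D : ℕ) (S : Set (Bp A Ω)) : BddAbove (Set.range fun x => Rx D x S) := by
  refine ⟨Fintype.card (Mon β n D), ?_⟩
  rintro _ ⟨x, rfl⟩
  exact Rx_le D x S

lemma Rx_le_rk (D : ℕ) (x : Bp A Ω) (S : Set (Bp A Ω)) : Rx D x S ≤ rk D S :=
  le_csSup (bdd D S) ⟨x, rfl⟩

lemma exists_rk (D : ℕ) (S : Set (Bp A Ω)) : ∃ x, Rx D x S = rk D S :=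
  Nat.sSup_mem (s := Set.range fun x => Rx D x S) ⟨_, ⟨0, rfl⟩⟩ (bdd D S)

lemma rk_le (D : ℕ) (S : Set (Bp A Ω)) : rk D S ≤ Fintype.card (Mon β n D) := by
  obtain ⟨x, hx⟩ := exists_rk D S
  rw [← hx]
  exact Rx_le D x S

lemma Sp_mono {D : ℕ} {x : Bp A Ω} {S T : Set (Bp A Ω)} (h : S ⊆ T) : Sp D x S ≤ Sp D x T :=
  Submodule.span_mono (Set.image_mono h)

lemma Rx_mono {D : ℕ} {x : Bp A Ω} {S T : Set (Bp A Ω)} (h : S ⊆ T) : Rx D x S ≤ Rx D x T :=
  Submodule.finrank_mono (Sp_mono h)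

lemma rk_mono {D : ℕ} {S T : Set (Bp A Ω)} (h : S ⊆ T) : rk D S ≤ rk D T := by
  obtain ⟨x, hx⟩ := exists_rk D S
  rw [← hx]
  exact (Rx_mono h).trans (Rx_le_rk D x T)

lemma Sp_add (D : ℕ) (x u : Bp A Ω) (S : Set (Bp A Ω)) :
    Sp D x ((fun a => a + u) '' S) = Sp D (x + u) S := by
  unfold Sp
  rw [Set.image_image]
  congr 2
  funext a
  congr 2
  abel

lemma rk_add (D : ℕ) (u : Bp A Ω) (S : Set (Bp A Ω)) : rk D ((fun a => a + u) '' S) = rk D S := by
  apply le_antisymm
  · obtain ⟨x, hx⟩ := exists_rk D ((fun a => a + u) '' S)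
    rw [← hx]
    unfold Rx
    rw [Sp_add]
    exact Rx_le_rk D (x + u) S
  · obtain ⟨x, hx⟩ := exists_rk D S
    rw [← hx]
    have h := Rx_le_rk D (x - u) ((fun a => a + u) '' S)
    unfold Rx at h
    rw [Sp_add, sub_add_cancel] at h
    exact h

end rank

end Pool.Agent.H14.PL
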