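import Pool.Agent.H14.PL.Rk

/-!
# Ranks of sets of points: points in general position and the closure
-/

set_option autoImplicit false
set_option linter.unusedSectionVars false

open MvPolynomial Pool.Agent.TH954.X Pool.Agent.TH954.V Pool.Agent.TH954.Z Pool.Agent.H14.LB

namespace Pool.Agent.H14.PL

section lin

variable {Ω : Type} [Field Ω] {M : Type} [Fintype M]

lemma exists_det {k : ℕ} (v : Fin k → M → Ω) (hv : LinearIndependent Ω v) :
    ∃ w : Fin k → M → Ω, Matrix.det (Matrix.of fun i j => ∑ m, w j m * v i m) ≠ 0 := by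
  classical
  obtain ⟨g, hg⟩ := hv.repr.exists_extend
  have h1 : ∀ i, g (v i) = Finsupp.single i 1 := by
    intro i
    have h2 := congrArg (fun f => f ⟨v i, Submodule.subset_span ⟨i, rfl⟩⟩) hg
    have h3 := hv.repr_eq_single i ⟨v i, Submodule.subset_span ⟨i, rfl⟩⟩ rfl
    exact h2.trans h3
  refine ⟨fun j m => g (Pi.single m 1) j, ?_⟩
  have h2 : (Matrix.of fun i j => ∑ m, g (Pi.single m 1) j * v i m) =
      (1 : Matrix (Fin k) (Fin k) Ω) := by
    ext i j
    rw [Matrix.of_apply]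
    have h3 : v i = ∑ m, v i m • (Pi.single m 1 : M → Ω) := by
      funext m
      rw [Finset.sum_apply, Finset.sum_eq_single m]
      · simp
      · intro m' _ hm'
        rw [Pi.smul_apply, Pi.single_eq_of_ne hm'.symm, smul_zero]
      · simp
    have h4 : g (v i) j = ∑ m, g (Pi.single m 1) j * v i m := by
      conv_lhs => rw [h3]
      rw [map_sum, Finsupp.finsetSum_apply]
      refine Finset.sum_congr rfl (fun m _ => ?_)
      rw [map_smul, Finsupp.smul_apply, smul_eq_mul, mul_comm]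
    rw [← h4, h1, Matrix.one_apply, Finsupp.single_apply]
  rw [h2, Matrix.det_one]
  exact one_ne_zero

lemma indep_of_det {k : ℕ} (v w : Fin k → M → Ω)
    (h : Matrix.det (Matrix.of fun i j => ∑ m, w j m * v i m) ≠ 0) : LinearIndependent Ω v := by
  classical
  let f : (M → Ω) →ₗ[Ω] (Fin k → Ω) :=
    { toFun := fun u j => ∑ m, w j m * u m
      map_add' := fun u u' => by
        funext j
        simp [mul_add, Finset.sum_add_distrib]
      map_smul' := fun s u => by
        funext j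
        simp only [Pi.smul_apply, smul_eq_mul, RingHom.id_apply, Finset.mul_sum]
        exact Finset.sum_congr rfl (fun m _ => by ring) }
  refine LinearIndependent.of_comp f ?_
  exact Matrix.linearIndependent_rows_of_det_ne_zero h

end lin

section det

variable {K : Type} [Field K] {n β : ℕ} {A : Fin β → AbV K n} {Ω : Type} [Field Ω] [Algebra K Ω]

/-- the form with the values of `H` at the translates by `a` -/
noncomputable def Tr (a : Bp A Ω) (i : Fin β → Fin n) (H : MvPolynomial (Fin β × Fin n) Ω) :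
    MvPolynomial (Fin β × Fin n) Ω := cmp H (fun b c => Cs A (-a) i b c)

lemma MH_Tr {D : Fin β → ℕ} (a : Bp A Ω) (i : Fin β → Fin n) {H : MvPolynomial (Fin β × Fin n) Ω}
    (hH : MH D H) : MH (fun b => D b * 2) (Tr a i H) := by
  have h1 := MH_cmp hH (fun b c => Cs A (-a) i b c) (fun b => HypL.sg b)
    (fun b c => MH_Cs A (-a) i b c)
  have h2 : (fun j : Fin β => ∑ l, D l * HypL.sg l j) = fun b => D b * 2 := by
    funext j
    unfold HypL.sg
    rw [Finset.sum_eq_single j]
    · rw [if_pos rfl]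
    · intro l _ hl
      rw [if_neg (Ne.symm hl), mul_zero]
    · simp
  rw [h2] at h1
  exact h1

lemma ev_Tr (a x : Bp A Ω) (i : Fin β → Fin n) : ∃ s : Fin β → Ω, (∀ b, s b ≠ 0) ∧
    ∀ (D : Fin β → ℕ) (H : MvPolynomial (Fin β × Fin n) Ω), MH D H →
      ev (Tr a i H) (vc x) = (∏ b, (s b * ((x - a) b).1 (i b)) ^ D b) * ev H (vc (x + a)) := by
  choose s hs hs' using fun b => ev_Cs A (-a) i b (F := Ω) x
  refine ⟨s, hs, fun D H hH => ?_⟩
  unfold Tr
  rw [ev_cmp]
  have h0 : bcB (IsScalarTower.toAlgHom K Ω Ω) (-a) = -a := by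
    funext b
    rfl
  have h1 : (fun (l : Fin β) (c : Fin n) => ev (Cs A (-a) i l c) (vc x)) =
      fun b => (s b * ((x - a) b).1 (i b)) • vc (x + a) b := by
    funext b c
    rw [hs' b c, h0, sub_neg_eq_add, ← sub_eq_add_neg]
    rfl
  rw [h1, ev_smul hH]

/-- the determinant of values of forms -/
lemma exists_form (D : ℕ) (x0 : Bp A Ω) (S : Set (Bp A Ω)) :
    ∃ (a : Fin (Rx D x0 S) → Bp A Ω) (G : MvPolynomial (Fin β × Fin n) Ω), (∀ i, a i ∈ S) ∧
      MH (fun _ => Rx D x0 S * (D * 2)) G ∧ ev G (vc x0) ≠ 0 ∧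
      ∀ x, ev G (vc x) ≠ 0 → LinearIndependent Ω (fun i => phi D (vc (x + a i))) := by
  classical
  set k := Rx D x0 S with hk
  obtain ⟨B, hB1, hB2, hB3⟩ := exists_linearIndependent Ω ((fun a => phi D (vc (x0 + a))) '' S)
  have hfin : B.Finite := hB3.setFinite
  have : Fintype B := hfin.fintype
  have hcard : Fintype.card B = k := by
    have h1 := finrank_span_set_eq_card hB3
    rw [hB2] at h1
    rw [Set.toFinset_card] at h1
    exact h1.symm
  let e : Fin k ≃ B := (Fintype.equivFinOfCardEq hcard).symm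
  have ha : ∀ i : Fin k, ∃ a ∈ S, phi D (vc (x0 + a)) = ((e i : B) : Mon β n D → Ω) :=
    fun i => hB1 (e i).2
  choose a haS ha using ha
  have hind : LinearIndependent Ω (fun i => phi D (vc (x0 + a i))) := by
    have h1 : (fun i => phi D (vc (x0 + a i))) = (Subtype.val : B → _) ∘ e := by
      funext i
      exact ha i
    rw [h1]
    exact hB3.comp _ e.injective
  obtain ⟨w, hw⟩ := exists_det _ hind
  have hi : ∀ (i : Fin k) (b : Fin β), ∃ c, ((x0 - a i) b).1 c ≠ 0 := fun i b => by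
    obtain ⟨c, hc, -⟩ := ((x0 - a i) b).2.1
    exact ⟨c, by rw [hc]; exact one_ne_zero⟩
  choose ι hι using hi
  set Mx : Matrix (Fin k) (Fin k) (MvPolynomial (Fin β × Fin n) Ω) :=
    Matrix.of fun i j => Tr (a i) (ι i) (frm (w j)) with hMx
  have hval : ∀ x : Bp A Ω, ∃ κ : Fin k → Ω, (∀ i, (∀ b, ((x - a i) b).1 (ι i b) ≠ 0) → κ i ≠ 0) ∧
      ev Mx.det (vc x) = (∏ i, κ i) *
        Matrix.det (Matrix.of fun i j => ∑ m, w j m * phi D (vc (x + a i)) m) := by
    intro x
    choose s hs hs' using fun i => ev_Tr (a i) x (ι i)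
    refine ⟨fun i => ∏ b, (s i b * ((x - a i) b).1 (ι i b)) ^ D, fun i hi => ?_, ?_⟩
    · exact Finset.prod_ne_zero_iff.2 (fun b _ => pow_ne_zero _ (mul_ne_zero (hs i b) (hi b)))
    · have h1 : ev Mx.det (vc x) = Matrix.det (Matrix.of fun i j => ev (Mx i j) (vc x)) := by
        unfold ev
        rw [AlgHom.map_det]
        rfl
      rw [h1, ← Matrix.det_mul_column]
      congr 1
      ext i j
      rw [Matrix.of_apply, Matrix.of_apply, hMx, Matrix.of_apply,
        hs' i (fun _ => D) _ (MH_frm (w j)), ev_frm]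
      rfl
  refine ⟨a, Mx.det, haS, ?_, ?_, fun x hx => ?_⟩
  · rw [Matrix.det_apply]
    refine MH_sum _ _ _ (fun σ _ => ?_)
    have h1 := MH_prod Finset.univ (fun (_ : Fin k) (_ : Fin β) => D * 2)
      (fun i => Mx (σ i) i) (fun i _ => MH_Tr (a (σ i)) (ι (σ i)) (MH_frm (w i)))
    have h2 : (fun j : Fin β => ∑ i ∈ (Finset.univ : Finset (Fin k)), D * 2) =
        fun _ => k * (D * 2) := by
      funext j
      rw [Finset.sum_const, Finset.card_univ, Fintype.card_fin, smul_eq_mul]
    rw [h2] at h1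
    have h3 := MH_mul (MH_C (((Equiv.Perm.sign σ : ℤˣ) : ℤ) : Ω) (ι := Fin β) (n := n)) h1
    have h4 : (Equiv.Perm.sign σ • ∏ i, Mx (σ i) i) =
        C (((Equiv.Perm.sign σ : ℤˣ) : ℤ) : Ω) * ∏ i, Mx (σ i) i := by
      rw [Units.smul_def, zsmul_eq_mul]
      congr 1
    rw [h4]
    have h5 : (fun i : Fin β => 0 + k * (D * 2)) = fun _ => k * (D * 2) := by
      funext i
      rw [zero_add]
    rw [h5] at h3
    exact h3
  · obtain ⟨κ, hκ, h⟩ := hval x0
    rw [h]
    exact mul_ne_zero (Finset.prod_ne_zero_iff.2 (fun i _ => hκ i (hι i))) hw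
  · obtain ⟨κ, hκ, h⟩ := hval x
    rw [h] at hx
    exact indep_of_det _ w (right_ne_zero_of_mul hx)

lemma le_Rx {D k : ℕ} {x : Bp A Ω} {S : Set (Bp A Ω)} {a : Fin k → Bp A Ω} (haS : ∀ i, a i ∈ S)
    (h : LinearIndependent Ω (fun i => phi D (vc (x + a i)))) : k ≤ Rx D x S := by
  have h1 := finrank_span_eq_card h
  rw [Fintype.card_fin] at h1
  rw [← h1]
  refine Submodule.finrank_mono (Submodule.span_mono ?_)
  rintro _ ⟨i, rfl⟩
  exact ⟨a i, haS i, rfl⟩

end det

section irr

variable {K : Type} [Field K] {n β : ℕ} {A : Fin β → AbV K n} {Ω : Type} [Field Ω] [IsAlgClosed Ω]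
  [Algebra K Ω]

/-- a form which does not vanish identically has a nonzero value at a point over an algebraically
closed field -/
lemma pt_of_NZ1 {H : MvPolynomial (Fin β × Fin n) Ω} (hH : NZ1 A Ω H) :
    ∃ x : Bp A Ω, ev H (vc x) ≠ 0 := by
  classical
  obtain ⟨F, iF, iKF, iΩF, iT, P, hP⟩ := hH
  choose i hi1 hi2 using fun b => (P b).2.1
  let p : ((b : Fin β) × Fin (A b).e) ⊕ (Fin β × Fin n) → MvPolynomial (Fin β × Fin n) Ω :=
    Sum.elim (fun q => rename (fun c => (q.1, c)) (map (algebraMap K Ω) ((A q.1).eqn q.2)))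
      (fun q => if q.2 < i q.1 then X q else if q.2 = i q.1 then X q - 1 else 0)
  obtain ⟨y, hy1, hy2⟩ := ec p H (fun q : Fin β × Fin n => (P q.1).1 q.2) (by
    rintro (q | q)
    · change aeval _ (rename (fun c => (q.1, c)) (map (algebraMap K Ω) ((A q.1).eqn q.2))) = 0
      rw [aeval_rename, aeval_map_algebraMap]
      exact (P q.1).2.2 q.2
    · change aeval _ (if q.2 < i q.1 then X q else if q.2 = i q.1 then X q - 1 else 0) = 0
      split_ifs with h1 h2
      · rw [aeval_X]
        exact hi2 q.1 q.2 h1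
      · rw [map_sub, aeval_X, map_one, h2, hi1, sub_self]
      · rw [map_zero]) hP
  have hy3 : ∀ b (j : Fin (A b).e), aeval (fun c => y (b, c)) ((A b).eqn j) = 0 := by
    intro b j
    have h1 := hy1 (Sum.inl ⟨b, j⟩)
    change eval y (rename (fun c => (b, c)) (map (algebraMap K Ω) ((A b).eqn j))) = 0 at h1
    rw [eval_rename] at h1
    rw [aeval_def, ← eval_map]
    exact h1
  have hy4 : ∀ b, Normed (fun c => y (b, c)) := by
    intro b
    refine ⟨i b, ?_, fun j hj => ?_⟩
    · have h1 := hy1 (Sum.inr (b, i b))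
      change eval y (if i b < i b then X (b, i b) else if i b = i b then X (b, i b) - 1 else 0) = 0
        at h1
      rw [if_neg (lt_irrefl _), if_pos rfl, map_sub, eval_X, map_one] at h1
      exact sub_eq_zero.1 h1
    · have h1 := hy1 (Sum.inr (b, j))
      change eval y (if j < i b then X (b, j) else if j = i b then X (b, j) - 1 else 0) = 0
        at h1
      rw [if_pos hj, eval_X] at h1
      exact h1
  refine ⟨fun b => ⟨fun c => y (b, c), hy4 b, hy3 b⟩, ?_⟩
  exact hy2

lemma two_pts {G G' : MvPolynomial (Fin β × Fin n) Ω} {σ σ' : Fin β → ℕ} (hG : MH σ G)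
    (hG' : MH σ' G') {x x' : Bp A Ω} (h : ev G (vc x) ≠ 0) (h' : ev G' (vc x') ≠ 0) :
    ∃ y : Bp A Ω, ev G (vc y) ≠ 0 ∧ ev G' (vc y) ≠ 0 := by
  have h1 : NZ1 A Ω G := ⟨Ω, inferInstance, inferInstance, inferInstance, inferInstance, x, h⟩
  have h2 : NZ1 A Ω G' := ⟨Ω, inferInstance, inferInstance, inferInstance, inferInstance, x', h'⟩
  obtain ⟨y, hy⟩ := pt_of_NZ1 (NZ1_mul A Ω hG hG' h1 h2)
  have h3 : ev (G * G') (vc y) = ev G (vc y) * ev G' (vc y) := by simp only [ev, map_mul]
  rw [h3] at hy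
  exact ⟨y, left_ne_zero_of_mul hy, right_ne_zero_of_mul hy⟩

/-- a point in general position for two sets -/
lemma common (D : ℕ) (S T : Set (Bp A Ω)) : ∃ x, Rx D x S = rk D S ∧ Rx D x T = rk D T := by
  obtain ⟨x1, h1⟩ := exists_rk D S
  obtain ⟨x2, h2⟩ := exists_rk D T
  obtain ⟨a, G, ha, hG, hG0, hGx⟩ := exists_form D x1 S
  obtain ⟨a', G', ha', hG', hG0', hGx'⟩ := exists_form D x2 T
  obtain ⟨y, hy, hy'⟩ := two_pts hG hG' hG0 hG0'
  refine ⟨y, le_antisymm (Rx_le_rk D y S) ?_, le_antisymm (Rx_le_rk D y T) ?_⟩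
  · rw [← h1]
    exact le_Rx ha (hGx y hy)
  · rw [← h2]
    exact le_Rx ha' (hGx' y hy')

/-- the closure of a set of points -/
def cl (D : ℕ) (S : Set (Bp A Ω)) : Set (Bp A Ω) := {b | rk D (insert b S) = rk D S}

lemma mem_Sp {D : ℕ} {S : Set (Bp A Ω)} {b : Bp A Ω} (hb : b ∈ cl D S) {x : Bp A Ω}
    (hx : Rx D x S = rk D S) : phi D (vc (x + b)) ∈ Sp D x S := by
  have h1 : Rx D x (insert b S) ≤ Rx D x S := by
    rw [hx, ← (show rk D (insert b S) = rk D S from hb)]
    exact Rx_le_rk D x _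
  have h2 : Sp D x S = Sp D x (insert b S) :=
    Submodule.eq_of_le_of_finrank_le (Sp_mono (Set.subset_insert b S)) h1
  rw [h2]
  exact Submodule.subset_span ⟨b, Set.mem_insert b S, rfl⟩

lemma rk_union {D : ℕ} {S E : Set (Bp A Ω)} (h : E ⊆ cl D S) : rk D (S ∪ E) = rk D S := by
  obtain ⟨x, h1, h2⟩ := common D S (S ∪ E)
  refine le_antisymm ?_ (rk_mono Set.subset_union_left)
  rw [← h1, ← h2]
  refine Submodule.finrank_mono (Submodule.span_le.2 ?_)
  rintro _ ⟨b, hb | hb, rfl⟩
  · exact Submodule.subset_span ⟨b, hb, rfl⟩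
  · exact mem_Sp (h hb) h1

lemma subset_cl (D : ℕ) {S T : Set (Bp A Ω)} (hST : S ⊆ T) (h : rk D T = rk D S) : T ⊆ cl D S := by
  intro b hb
  refine le_antisymm ?_ (rk_mono (Set.subset_insert b S))
  rw [← h]
  exact rk_mono (Set.insert_subset hb hST)

/-- sets of equal rank have the same closure -/
lemma cl_eq {D : ℕ} {S T : Set (Bp A Ω)} (hST : S ⊆ T) (h : rk D T = rk D S) :
    cl D T = cl D S := by
  apply Set.Subset.antisymm
  · intro b hb
    refine le_antisymm ?_ (rk_mono (Set.subset_insert b S))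
    rw [← h, ← (show rk D (insert b T) = rk D T from hb)]
    exact rk_mono (Set.insert_subset_insert hST)
  · intro b hb
    have h1 : T ∪ {b} ⊆ cl D S := by
      rintro y (hy | hy)
      · exact subset_cl D hST h hy
      · rw [Set.mem_singleton_iff.1 hy]
        exact hb
    have h2 := rk_union h1
    refine le_antisymm ?_ (rk_mono (Set.subset_insert b T))
    rw [h, ← h2]
    refine rk_mono ?_
    rintro y (hy | hy)
    · exact Or.inr (Or.inr hy)
    · exact Or.inr (Or.inl hy)

lemma cl_add {D : ℕ} {S : Set (Bp A Ω)} {b : Bp A Ω} (hb : b ∈ cl D S) (u : Bp A Ω) :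
    b + u ∈ cl D ((fun a => a + u) '' S) := by
  have h1 : insert (b + u) ((fun a => a + u) '' S) = (fun a => a + u) '' (insert b S) := by
    rw [Set.image_insert_eq]
  change rk D (insert (b + u) ((fun a => a + u) '' S)) = _
  rw [h1, rk_add, rk_add]
  exact hb

end irr

end Pool.Agent.H14.PL
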