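import Pool.Agent.H14.PL.Rk2

/-!
# Ranks of sets of points: forms vanishing on the closure, test points
-/

set_option autoImplicit false
set_option linter.unusedSectionVars false

open MvPolynomial Pool.Agent.TH954.X Pool.Agent.TH954.V Pool.Agent.TH954.Z Pool.Agent.H14.LB

namespace Pool.Agent.H14.PL

section

variable {K : Type} [Field K] {n β : ℕ} {A : Fin β → AbV K n} {Ω : Type} [Field Ω] [IsAlgClosed Ω]
  [Algebra K Ω]

lemma ev_span {D : ℕ} {G : MvPolynomial (Fin β × Fin n) Ω} (hG : MH (fun _ => D) G)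
    {x : Bp A Ω} {S : Set (Bp A Ω)} (h : ∀ s ∈ S, ev G (vc (x + s)) = 0) {b : Bp A Ω}
    (hb : phi D (vc (x + b)) ∈ Sp D x S) : ev G (vc (x + b)) = 0 := by
  let f : (Mon β n D → Ω) →ₗ[Ω] Ω :=
    { toFun := fun u => ∑ m : Mon β n D, coeff m.1 G * u m
      map_add' := fun u u' => by
        simp [mul_add, Finset.sum_add_distrib]
      map_smul' := fun s u => by
        simp only [Pi.smul_apply, smul_eq_mul, RingHom.id_apply, Finset.mul_sum]
        exact Finset.sum_congr rfl (fun m _ => by ring) }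
  have h1 : Sp D x S ≤ LinearMap.ker f := by
    refine Submodule.span_le.2 ?_
    rintro _ ⟨s, hs, rfl⟩
    change f _ = 0
    have h2 := h s hs
    rw [ev_eq hG] at h2
    exact h2
  have h2 : f (phi D (vc (x + b))) = 0 := h1 hb
  rw [ev_eq hG]
  exact h2

/-- a form vanishing on a set vanishes on the closure -/
theorem van {D : ℕ} {σ : Fin β → ℕ} (hσ : ∀ b, σ b * 2 ≤ D) {F : MvPolynomial (Fin β × Fin n) Ω}
    (hF : MH σ F) {S : Set (Bp A Ω)} (h : ∀ s ∈ S, ev F (vc s) = 0) {b : Bp A Ω}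
    (hb : b ∈ cl D S) : ev F (vc b) = 0 := by
  classical
  obtain ⟨x, hx⟩ := exists_rk D S
  have hi : ∀ b' : Fin β, ∃ c, ((x + b + x) b').1 c ≠ 0 := fun b' => by
    obtain ⟨c, hc, -⟩ := ((x + b + x) b').2.1
    exact ⟨c, by rw [hc]; exact one_ne_zero⟩
  have hj : ∀ b' : Fin β, ∃ c, ((x + b) b').1 c ≠ 0 := fun b' => by
    obtain ⟨c, hc, -⟩ := ((x + b) b').2.1
    exact ⟨c, by rw [hc]; exact one_ne_zero⟩
  choose i hi using hi
  choose j hj using hj
  set G : MvPolynomial (Fin β × Fin n) Ω :=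
    Tr (-x) i F * ∏ b', X (b', j b') ^ (D - σ b' * 2) with hG
  have hX : ∀ b' ∈ (Finset.univ : Finset (Fin β)),
      MH (fun l : Fin β => (D - σ b' * 2) * (if l = b' then 1 else 0))
        (X (b', j b') ^ (D - σ b' * 2) : MvPolynomial (Fin β × Fin n) Ω) := by
    intro b' _
    refine MH_pow ?_ _
    convert Gen.MH_X (K := Ω) b' (j b')
  have hGM : MH (fun _ => D) G := by
    have h1 := MH_mul (MH_Tr (-x) i hF) (MH_prod Finset.univ _ _ hX)
    have h2 : (fun l : Fin β => σ l * 2 + ∑ b' ∈ (Finset.univ : Finset (Fin β)),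
        (D - σ b' * 2) * (if l = b' then 1 else 0)) = fun _ => D := by
      funext l
      rw [Finset.sum_eq_single l]
      · rw [if_pos rfl, mul_one]
        have := hσ l
        omega
      · intro b' _ hb'
        rw [if_neg (Ne.symm hb'), mul_zero]
      · simp
    rw [h2] at h1
    exact h1
  have hev : ∀ z : Bp A Ω, ∃ s : Fin β → Ω, (∀ b, s b ≠ 0) ∧ ev G (vc (x + z)) =
      (∏ b', (s b' * ((x + z + x) b').1 (i b')) ^ σ b') * ev F (vc z) *
        ∏ b', ((x + z) b').1 (j b') ^ (D - σ b' * 2) := by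
    intro z
    obtain ⟨s, hs, hs'⟩ := ev_Tr (-x) (x + z) i
    refine ⟨s, hs, ?_⟩
    have h1 : ev G (vc (x + z)) = ev (Tr (-x) i F) (vc (x + z)) *
        ev (∏ b', X (b', j b') ^ (D - σ b' * 2) : MvPolynomial (Fin β × Fin n) Ω)
          (vc (x + z)) := by
      simp only [hG, ev, map_mul]
    rw [h1, hs' σ F hF]
    have h2 : x + z - -x = x + z + x := by abel
    have h3 : x + z + -x = z := by abel
    rw [h2, h3]
    congr 1
    simp only [ev, map_prod, map_pow, aeval_X]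
    rfl
  have h0 : ev G (vc (x + b)) = 0 := by
    refine ev_span hGM (S := S) (fun s hs => ?_) (mem_Sp hb hx)
    obtain ⟨t, -, ht⟩ := hev s
    rw [ht, h s hs]
    ring
  obtain ⟨t, ht0, ht⟩ := hev b
  rw [ht] at h0
  rcases mul_eq_zero.1 h0 with h1 | h1
  · rcases mul_eq_zero.1 h1 with h2 | h2
    · exact absurd h2 (Finset.prod_ne_zero_iff.2 (fun b' _ => pow_ne_zero _
        (mul_ne_zero (ht0 b') (hi b'))))
    · exact h2
  · exact absurd h1 (Finset.prod_ne_zero_iff.2 (fun b' _ => pow_ne_zero _ (hj b')))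

lemma phi_ne {D : ℕ} (u : Bp A Ω) : phi D (vc u) ≠ 0 := by
  classical
  choose i hi _ using fun b => (u b).2.1
  let m : Mon β n D := ⟨Finsupp.equivFunOnFinite.symm (fun p => if p.2 = i p.1 then D else 0),
    fun j => by simp⟩
  intro h
  have h1 := congrFun h m
  have h2 : phi D (vc u) m = 1 := by
    unfold phi
    refine Finset.prod_eq_one (fun p _ => ?_)
    change (u p.1).1 p.2 ^ (if p.2 = i p.1 then D else 0) = 1
    split_ifs with h3
    · rw [h3, hi, one_pow]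
    · exact pow_zero _
  rw [h2] at h1
  exact one_ne_zero h1

lemma rk_pos {D : ℕ} {S : Set (Bp A Ω)} (hS : S.Nonempty) : 1 ≤ rk D S := by
  obtain ⟨s, hs⟩ := hS
  refine le_trans ?_ (Rx_le_rk D 0 S)
  have h1 : (LinearIndependent Ω (fun _ : Fin 1 => phi D (vc (0 + s)))) :=
    LinearIndependent.of_subsingleton (ι := Fin 1) 0 (phi_ne (0 + s))
  exact le_Rx (a := fun _ => s) (fun _ => hs) h1

/-- finitely many points detect the vanishing of forms of given degree -/
lemma test (A : Fin β → AbV K n) (Ω : Type) [Field Ω] [IsAlgClosed Ω] [Algebra K Ω] (D : ℕ) :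
    ∃ X : Set (Bp A Ω), X.Finite ∧ ∀ H : MvPolynomial (Fin β × Fin n) Ω,
      MH (fun _ => D) H → (∀ x ∈ X, ev H (vc x) = 0) → ∀ x : Bp A Ω, ev H (vc x) = 0 := by
  classical
  obtain ⟨B, hB1, hB2, hB3⟩ := exists_linearIndependent Ω
    (Set.range (fun x : Bp A Ω => phi D (vc x)))
  have hfin : B.Finite := hB3.setFinite
  have h1 : ∀ v : B, ∃ x : Bp A Ω, phi D (vc x) = v := fun v => hB1 v.2
  choose f hf using h1
  have : Finite B := hfin
  refine ⟨Set.range f, Set.finite_range f, fun H hH hX x => ?_⟩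
  have h2 : phi D (vc (0 + x)) ∈ Sp D 0 (Set.range f) := by
    have h3 : phi D (vc (0 + x)) ∈ Submodule.span Ω B := by
      rw [hB2]
      exact Submodule.subset_span ⟨0 + x, rfl⟩
    refine Submodule.span_mono ?_ h3
    intro v hv
    refine ⟨f ⟨v, hv⟩, ⟨_, rfl⟩, ?_⟩
    simp only [zero_add]
    exact hf ⟨v, hv⟩
  have h3 := ev_span (x := (0 : Bp A Ω)) hH (S := Set.range f) (fun s hs => by
    rw [zero_add]
    exact hX s hs) h2
  rw [zero_add] at h3
  exact h3

/-- finitely many points compute the ranks -/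
lemma test_rk (A : Fin β → AbV K n) (Ω : Type) [Field Ω] [IsAlgClosed Ω] [Algebra K Ω] (D : ℕ) :
    ∃ X : Set (Bp A Ω), X.Finite ∧ ∀ S : Set (Bp A Ω), ∃ x ∈ X, Rx D x S = rk D S := by
  choose X hX1 hX2 using fun k : Fin (Fintype.card (Mon β n D) + 1) =>
    test A Ω ((k : ℕ) * (D * 2))
  refine ⟨⋃ k, X k, Set.finite_iUnion hX1, fun S => ?_⟩
  obtain ⟨x0, hx0⟩ := exists_rk D S
  obtain ⟨a, G, ha, hG, hG0, hGx⟩ := exists_form D x0 S
  have h1 : ∃ x ∈ X ⟨Rx D x0 S, Nat.lt_succ_of_le (Rx_le D x0 S)⟩, ev G (vc x) ≠ 0 := by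
    by_contra hcon
    push Not at hcon
    exact hG0 (hX2 ⟨Rx D x0 S, Nat.lt_succ_of_le (Rx_le D x0 S)⟩ G hG hcon x0)
  obtain ⟨x, hx, hne⟩ := h1
  refine ⟨x, Set.mem_iUnion.2 ⟨_, hx⟩, le_antisymm (Rx_le_rk D x S) ?_⟩
  rw [← hx0]
  exact le_Rx ha (hGx x hne)

/-- a set contains few points with the same rank -/
lemma exists_sub (D : ℕ) (S : Set (Bp A Ω)) : ∃ (k : Fin (Fintype.card (Mon β n D) + 1))
    (a : Fin k → Bp A Ω), (∀ i, a i ∈ S) ∧ rk D (Set.range a) = rk D S := by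
  obtain ⟨x0, hx0⟩ := exists_rk D S
  obtain ⟨a, G, ha, hG, hG0, hGx⟩ := exists_form D x0 S
  refine ⟨⟨Rx D x0 S, Nat.lt_succ_of_le (Rx_le D x0 S)⟩, a, ha, le_antisymm ?_ ?_⟩
  · refine rk_mono ?_
    rintro _ ⟨i, rfl⟩
    exact ha i
  · rw [← hx0]
    exact (le_Rx (S := Set.range a) (fun i => ⟨i, rfl⟩) (hGx x0 hG0)).trans (Rx_le_rk D x0 _)

end

end Pool.Agent.H14.PL
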