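import Pool.Agent.H14.PL.Ec

/-!
# Small solutions of systems of polynomial equations
-/

set_option autoImplicit false

open MvPolynomial Filter

namespace Pool.Agent.H14.PL

/-- properties of a height on an algebraically closed field -/
structure Ht (Ω : Type) [Field Ω] (H : Ω → ℝ) : Prop where
  nonneg : ∀ a, 0 ≤ H a
  add : ∃ c : ℝ, ∀ a b, H (a + b) ≤ H a + H b + c
  mul : ∀ a b, H (a * b) ≤ H a + H b
  inv : ∀ a, H a⁻¹ ≤ H a
  root : ∀ d : ℕ, ∃ C : ℝ, ∀ (f : Fin d → Ω) (z : Ω), z ^ d + ∑ i, f i * z ^ (i : ℕ) = 0 →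
    H z ≤ ∑ i, H (f i) + C

section

variable {Ω : Type} [Field Ω]

/-- germs of sequences -/
abbrev GG (Ω : Type) : Type := Germ ((hyperfilter ℕ : Ultrafilter ℕ) : Filter ℕ) Ω

/-- small sequences -/
def Sm (H : Ω → ℝ) (R : ℕ → ℝ) (f : ℕ → Ω) : Prop := ∃ C : ℝ, ∀ n, H (f n) ≤ C * R n

variable {H : Ω → ℝ} {R : ℕ → ℝ}

lemma Sm.const (hR : ∀ n, 1 ≤ R n) (hH : Ht Ω H) (a : Ω) : Sm H R (fun _ => a) :=
  ⟨H a, fun n => le_mul_of_one_le_right (hH.nonneg a) (hR n)⟩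

lemma Sm.mul (hH : Ht Ω H) {f g : ℕ → Ω} (hf : Sm H R f) (hg : Sm H R g) :
    Sm H R (f * g) := by
  obtain ⟨C1, h1⟩ := hf
  obtain ⟨C2, h2⟩ := hg
  refine ⟨C1 + C2, fun n => ?_⟩
  have := hH.mul (f n) (g n)
  have h3 := h1 n
  have h4 := h2 n
  rw [add_mul]
  exact this.trans (add_le_add h3 h4)

lemma Sm.add (hR : ∀ n, 1 ≤ R n) (hH : Ht Ω H) {f g : ℕ → Ω} (hf : Sm H R f)
    (hg : Sm H R g) : Sm H R (f + g) := by
  obtain ⟨C1, h1⟩ := hf
  obtain ⟨C2, h2⟩ := hg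
  obtain ⟨c, hc⟩ := hH.add
  refine ⟨C1 + C2 + |c|, fun n => ?_⟩
  have := hc (f n) (g n)
  have h3 := h1 n
  have h4 := h2 n
  have h5 : c ≤ |c| * R n := (le_abs_self c).trans (le_mul_of_one_le_right (abs_nonneg c) (hR n))
  rw [add_mul, add_mul]
  exact this.trans (add_le_add (add_le_add h3 h4) h5)

lemma Sm.inv (hH : Ht Ω H) {f : ℕ → Ω} (hf : Sm H R f) : Sm H R (f⁻¹) := by
  obtain ⟨C1, h1⟩ := hf
  exact ⟨C1, fun n => (hH.inv (f n)).trans (h1 n)⟩

/-- the field of germs of small sequences -/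
def SF (H : Ω → ℝ) (R : ℕ → ℝ) (hR : ∀ n, 1 ≤ R n) (hH : Ht Ω H) : Subfield (GG Ω) where
  carrier := {z | ∃ f : ℕ → Ω, Sm H R f ∧ (↑f : GG Ω) = z}
  mul_mem' := by
    rintro _ _ ⟨f, hf, rfl⟩ ⟨g, hg, rfl⟩
    exact ⟨f * g, hf.mul hH hg, rfl⟩
  one_mem' := ⟨fun _ => 1, Sm.const hR hH 1, rfl⟩
  add_mem' := by
    rintro _ _ ⟨f, hf, rfl⟩ ⟨g, hg, rfl⟩
    exact ⟨f + g, hf.add hR hH hg, rfl⟩
  zero_mem' := ⟨fun _ => 0, Sm.const hR hH 0, rfl⟩
  neg_mem' := by
    rintro _ ⟨f, hf, rfl⟩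
    refine ⟨(fun _ => -1) * f, (Sm.const hR hH (-1)).mul hH hf, ?_⟩
    have : ((fun _ => -1) * f : ℕ → Ω) = -f := by
      funext n
      simp
    rw [this]
    rfl
  inv_mem' := by
    rintro _ ⟨f, hf, rfl⟩
    exact ⟨f⁻¹, hf.inv hH, rfl⟩

/-- constants -/
noncomputable def kap (Ω : Type) [Field Ω] : Ω →+* GG Ω :=
  (Germ.coeRingHom ((hyperfilter ℕ : Ultrafilter ℕ) : Filter ℕ) (R := Ω)).comp (Pi.constRingHom ℕ Ω)

lemma germ_eval {τ : Type} (P : MvPolynomial τ Ω) (z : τ → ℕ → Ω) :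
    eval₂ (kap Ω) (fun t => (↑(z t) : GG Ω)) P = ↑(fun n => eval (fun t => z t n) P) := by
  have h1 : (fun n => eval (fun t => z t n) P) = eval₂ (Pi.constRingHom ℕ Ω) z P := by
    funext n
    have := hom_eval₂ P (Pi.constRingHom ℕ Ω) (Pi.evalRingHom (fun _ : ℕ => Ω) n) z
    rw [Pi.evalRingHom_apply] at this
    rw [this]
    rfl
  rw [h1]
  have h2 := hom_eval₂ P (Pi.constRingHom ℕ Ω)
    (Germ.coeRingHom ((hyperfilter ℕ : Ultrafilter ℕ) : Filter ℕ) (R := Ω)) z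
  exact h2.symm

instance SF_closed [IsAlgClosed Ω] (hR : ∀ n, 1 ≤ R n) (hH : Ht Ω H) :
    IsAlgClosed (SF H R hR hH) := by
  refine IsAlgClosed.of_exists_root _ (fun p hp hirr => ?_)
  set d := p.natDegree with hd
  have hd0 : 0 < d := hirr.natDegree_pos
  have hc : ∀ i : Fin d, ∃ f : ℕ → Ω, Sm H R f ∧ (↑f : GG Ω) = (p.coeff i : GG Ω) :=
    fun i => (p.coeff i).2
  choose f hf hfe using hc
  obtain ⟨C, hC⟩ := hH.root d
  have hz : ∀ n, ∃ z : Ω, z ^ d + ∑ i, f i n * z ^ (i : ℕ) = 0 := by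
    intro n
    have hdeg : (Polynomial.X ^ d + ∑ i : Fin d, Polynomial.C (f i n) *
        Polynomial.X ^ (i : ℕ) : Polynomial Ω).degree ≠ 0 := by
      have h1 := Polynomial.degree_add_eq_left_of_degree_lt
        (p := (Polynomial.X ^ d : Polynomial Ω))
        (q := ∑ i : Fin d, Polynomial.C (f i n) * Polynomial.X ^ (i : ℕ))
        (by rw [Polynomial.degree_X_pow]; exact Polynomial.degree_sum_fin_lt _)
      rw [h1, Polynomial.degree_X_pow]
      exact_mod_cast hd0.ne'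
    obtain ⟨z, hz⟩ := IsAlgClosed.exists_root _ hdeg
    refine ⟨z, ?_⟩
    have h1 : Polynomial.eval z (Polynomial.X ^ d + ∑ i : Fin d, Polynomial.C (f i n) *
        Polynomial.X ^ (i : ℕ) : Polynomial Ω) = 0 := hz
    rw [Polynomial.eval_add, Polynomial.eval_pow, Polynomial.eval_X, Polynomial.eval_finsetSum]
      at h1
    simpa using h1
  choose z hz using hz
  have hzs : Sm H R z := by
    choose B hB using hf
    refine ⟨∑ i, B i + |C|, fun n => ?_⟩
    refine (hC _ _ (hz n)).trans ?_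
    rw [add_mul, Finset.sum_mul]
    refine add_le_add (Finset.sum_le_sum (fun i _ => hB i n)) ?_
    exact (le_abs_self C).trans (le_mul_of_one_le_right (abs_nonneg C) (hR n))
  refine ⟨⟨↑z, z, hzs, rfl⟩, ?_⟩
  apply Subtype.ext
  have h1 : (Polynomial.eval (⟨↑z, z, hzs, rfl⟩ : SF H R hR hH) p : SF H R hR hH) =
      (⟨↑z, z, hzs, rfl⟩ : SF H R hR hH) ^ d +
        ∑ i : Fin d, p.coeff i * (⟨↑z, z, hzs, rfl⟩ : SF H R hR hH) ^ (i : ℕ) := by
    rw [Polynomial.eval_eq_sum_range, Finset.sum_range_succ, hp.coeff_natDegree, one_mul,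
      Finset.sum_range, add_comm]
  rw [h1]
  push_cast
  have h2 : ((↑z : GG Ω)) ^ d + ∑ i : Fin d, (p.coeff i : GG Ω) * (↑z : GG Ω) ^ (i : ℕ) =
      Germ.coeRingHom ((hyperfilter ℕ : Ultrafilter ℕ) : Filter ℕ) (R := Ω)
        (z ^ d + ∑ i : Fin d, f i * z ^ (i : ℕ)) := by
    rw [map_add, map_pow, map_sum]
    congr 1
    refine Finset.sum_congr rfl (fun i _ => ?_)
    rw [map_mul, map_pow, ← hfe i]
    rfl
  rw [h2]
  have h3 : z ^ d + ∑ i : Fin d, f i * z ^ (i : ℕ) = 0 := by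
    funext n
    have := hz n
    simpa using this
  rw [h3, map_zero]

/-- **Small solutions.** A solvable system of equations and one inequation has a solution whose height
is bounded linearly in terms of the heights of the parameters. -/
theorem ssl [IsAlgClosed Ω] (hH : Ht Ω H) {μ ν I : Type} [Fintype μ] [Finite ν] [Finite I]
    (P : I → MvPolynomial (μ ⊕ ν) Ω) (g : MvPolynomial (μ ⊕ ν) Ω) :
    ∃ C : ℝ, 0 ≤ C ∧ ∀ c : μ → Ω,
      (∃ x : ν → Ω, (∀ i, eval (Sum.elim c x) (P i) = 0) ∧ eval (Sum.elim c x) g ≠ 0) →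
      ∃ x : ν → Ω, (∀ i, eval (Sum.elim c x) (P i) = 0) ∧ eval (Sum.elim c x) g ≠ 0 ∧
        ∀ j, H (x j) ≤ C * (1 + ∑ i, H (c i)) := by
  have : Fintype ν := Fintype.ofFinite ν
  by_contra hcon
  push Not at hcon
  have h0 : ∀ n : ℕ, ∃ c : μ → Ω,
      (∃ x : ν → Ω, (∀ i, eval (Sum.elim c x) (P i) = 0) ∧ eval (Sum.elim c x) g ≠ 0) ∧
      ∀ x : ν → Ω, (∀ i, eval (Sum.elim c x) (P i) = 0) → eval (Sum.elim c x) g ≠ 0 →
        ∃ j, (n : ℝ) * (1 + ∑ i, H (c i)) < H (x j) := fun n => hcon n (Nat.cast_nonneg n)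
  choose c hx hno using h0
  choose x hx1 hx2 using hx
  set R : ℕ → ℝ := fun n => 1 + ∑ i, H (c n i) with hRdef
  have hR : ∀ n, 1 ≤ R n := fun n => by
    have : 0 ≤ ∑ i, H (c n i) := Finset.sum_nonneg (fun i _ => hH.nonneg _)
    simp only [hRdef]
    linarith
  let 𝕂 := SF H R hR hH
  have hc : ∀ i, Sm H R (fun n => c n i) := fun i => ⟨1, fun n => by
    rw [one_mul]
    have h1 : H (c n i) ≤ ∑ i, H (c n i) :=
      Finset.single_le_sum (f := fun i => H (c n i)) (fun i _ => hH.nonneg _) (Finset.mem_univ i)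
    simp only [hRdef]
    linarith⟩
  let cK : μ → 𝕂 := fun i => ⟨↑(fun n => c n i), _, hc i, rfl⟩
  let κ : Ω →+* 𝕂 := (kap Ω).codRestrict 𝕂.toSubring.toSubsemiring
    (fun a => ⟨fun _ => a, Sm.const hR hH a, rfl⟩)
  let q : MvPolynomial (μ ⊕ ν) Ω → MvPolynomial ν 𝕂 := fun p =>
    eval₂ (C.comp κ) (Sum.elim (fun i => C (cK i)) X) p
  have hq1 : ∀ (p : MvPolynomial (μ ⊕ ν) Ω) (y : ν → 𝕂), eval y (q p) =
      eval₂ κ (Sum.elim cK y) p := by
    intro p y
    have h1 := hom_eval₂ p (C.comp κ) (eval y) (Sum.elim (fun i => C (cK i)) X)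
    rw [h1]
    congr 1
    · ext a
      simp
    · funext t
      cases t with
      | inl i => simp
      | inr j => simp
  have hq2 : ∀ (p : MvPolynomial (μ ⊕ ν) Ω) (y : ν → GG Ω), aeval y (q p) =
      eval₂ (kap Ω) (Sum.elim (fun i => (↑(fun n => c n i) : GG Ω)) y) p := by
    intro p y
    have h1 := hom_eval₂ p (C.comp κ) (aeval (R := 𝕂) y).toRingHom
      (Sum.elim (fun i => C (cK i)) X)
    refine Eq.trans h1 ?_
    congr 1
    · ext a
      simp
      rfl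
    · funext t
      cases t with
      | inl i =>
        simp
        rfl
      | inr j => simp
  have hG : ∀ (p : MvPolynomial (μ ⊕ ν) Ω) (y : ν → ℕ → Ω),
      aeval (fun j => (↑(y j) : GG Ω)) (q p) = ↑(fun n => eval (Sum.elim (c n) (fun j => y j n)) p) := by
    intro p y
    rw [hq2]
    have h1 := germ_eval p (Sum.elim (fun i n => c n i) y)
    have h2 : (fun t => (↑((Sum.elim (fun i n => c n i) y : μ ⊕ ν → ℕ → Ω) t) : GG Ω)) =
        Sum.elim (fun i => (↑(fun n => c n i) : GG Ω)) (fun j => (↑(y j) : GG Ω)) := by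
      funext t
      cases t with
      | inl i => rfl
      | inr j => rfl
    rw [h2] at h1
    rw [h1]
    congr 1
    funext n
    congr 1
    congr 1
    funext t
    cases t with
    | inl i => rfl
    | inr j => rfl
  obtain ⟨y, hy1, hy2⟩ := ec (k := 𝕂) (F := GG Ω) (fun i => q (P i)) (q g)
    (fun j => (↑(fun n => x n j) : GG Ω)) (fun i => by
      rw [hG]
      have : (fun n => eval (Sum.elim (c n) (fun j => x n j)) (P i)) = fun _ => 0 := by
        funext n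
        exact hx1 n i
      rw [this]
      rfl) (by
      rw [hG]
      intro h
      have h1 := (Germ.coe_eq (f := fun n => eval (Sum.elim (c n) (fun j => x n j)) g)
        (g := fun _ => 0)).1 h
      obtain ⟨n, hn⟩ := h1.exists
      exact hx2 n hn)
  have hyf : ∀ j, ∃ f : ℕ → Ω, Sm H R f ∧ (↑f : GG Ω) = (y j : GG Ω) := fun j => (y j).2
  choose f hf hfe using hyf
  have hy1' : ∀ i, aeval (fun j => (↑(f j) : GG Ω)) (q (P i)) = 0 := by
    intro i
    have h1 : (fun j => (↑(f j) : GG Ω)) = fun j => algebraMap 𝕂 (GG Ω) (y j) := by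
      funext j
      exact hfe j
    rw [h1]
    have h2 := hy1 i
    have h3 : aeval (fun j => algebraMap 𝕂 (GG Ω) (y j)) (q (P i)) =
        algebraMap 𝕂 (GG Ω) (eval y (q (P i))) := aeval_algebraMap_apply _ _ _
    rw [h3, h2, map_zero]
  have hy2' : aeval (fun j => (↑(f j) : GG Ω)) (q g) ≠ 0 := by
    have h1 : (fun j => (↑(f j) : GG Ω)) = fun j => algebraMap 𝕂 (GG Ω) (y j) := by
      funext j
      exact hfe j
    rw [h1]
    have h3 : aeval (fun j => algebraMap 𝕂 (GG Ω) (y j)) (q g) =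
        algebraMap 𝕂 (GG Ω) (eval y (q g)) := aeval_algebraMap_apply _ _ _
    rw [h3]
    intro h
    exact hy2 ((map_eq_zero _).1 h)
  rw [hG] at hy2'
  have e1 : ∀ᶠ n in (hyperfilter ℕ : Filter ℕ), eval (Sum.elim (c n) (fun j => f j n)) g ≠ 0 := by
    rw [Ultrafilter.eventually_not]
    intro h
    exact hy2' (Germ.coe_eq.2 h)
  have e2 : ∀ᶠ n in (hyperfilter ℕ : Filter ℕ), ∀ i,
      eval (Sum.elim (c n) (fun j => f j n)) (P i) = 0 := by
    rw [eventually_all]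
    intro i
    have h := hy1' i
    rw [hG] at h
    exact Germ.coe_eq.1 h
  choose B hB using hf
  have e3 : ∀ᶠ n : ℕ in (hyperfilter ℕ : Filter ℕ), ∀ j, B j ≤ (n : ℝ) := by
    rw [eventually_all]
    intro j
    exact Nat.hyperfilter_le_atTop ((tendsto_natCast_atTop_atTop (R := ℝ)).eventually_ge_atTop (B j))
  obtain ⟨n, h1, h2, h3⟩ := (e1.and (e2.and e3)).exists
  obtain ⟨j, hj⟩ := hno n (fun j => f j n) h2 h1
  have h4 := hB j n
  have h5 : B j * R n ≤ n * R n := mul_le_mul_of_nonneg_right (h3 j) (by linarith [hR n])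
  have h6 : (n : ℝ) * R n < H (f j n) := hj
  linarith

end

end Pool.Agent.H14.PL
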